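import Mathlib
import Pool.Agent.H50.IT.Defs

/-!
# Infinite valence near every boundary point: definitions
-/

open Complex Set Filter Topology

namespace Pool.Agent.H50.IU

/-- analytic in the disc, with bounded derivative, in the class of `C` and `r` -/
structure P (C r : ℝ) (f : ℂ → ℂ) : Prop where
  diff : DifferentiableOn ℂ f (Metric.ball 0 1)
  zero : f 0 = 0
  bdd : ∃ N : ℝ, ∀ z ∈ Metric.ball (0 : ℂ) 1, ‖deriv f z‖ ≤ N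
  le_r : ∀ z ∈ Metric.ball (0 : ℂ) 1, (1 - ‖z‖ ^ 2) * ‖deriv f z‖ ≤ r
  le_C : ∀ z ∈ Metric.ball (0 : ℂ) 1, (1 - ‖z‖ ^ 2) * ‖deriv f z‖ ≤ 1 + C * (1 - ‖z‖)

/-- `g` is the primitive of `exp f`, continuous on the closed disc -/
structure Prim (f g : ℂ → ℂ) : Prop where
  cont : ContinuousOn g (Metric.closedBall 0 1)
  zero : g 0 = 0
  deriv : ∀ z ∈ Metric.ball (0 : ℂ) 1, HasDerivAt g (exp (f z)) z

/-- every `h` near `g` takes the value `h ξ` near `ξ` -/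
def Rob (g : ℂ → ℂ) (ξ : ℂ) (δ η : ℝ) : Prop :=
  ∀ h : ℂ → ℂ, ContinuousOn h (Metric.closedBall 0 1) →
    (∀ z ∈ Metric.ball (0 : ℂ) 1, ∃ d, d ≠ 0 ∧ HasDerivAt h d z) →
    (∀ z ∈ Metric.closedBall (0 : ℂ) 1, ‖h z - g z‖ ≤ η) →
    ∃ z ∈ Metric.ball (0 : ℂ) 1, ‖z - ξ‖ < δ ∧ h z = h ξ

/-- smooth, flat at the point `1`, strictly inside the class -/
structure Flat (C r κ N : ℝ) (f : ℂ → ℂ) : Prop where
  zero : f 0 = 0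
  diff : ∀ z : ℂ, ‖z‖ ≤ 1 → DifferentiableAt ℂ f z
  flat : ∀ z : ℂ, ‖z‖ ≤ 1 → ‖deriv f z‖ ≤ N * ‖1 - z‖
  le_r : ∀ z : ℂ, ‖z‖ ≤ 1 → (1 - ‖z‖ ^ 2) * ‖deriv f z‖ ≤ r - κ
  le_C : ∀ z : ℂ, ‖z‖ ≤ 1 → (1 - ‖z‖ ^ 2) * ‖deriv f z‖ ≤ 1 - κ + C * (1 - ‖z‖)

end Pool.Agent.H50.IU
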