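import Pool.Agent.H50.IU.Defs

/-! # The primitive of `exp f` on the closed disc -/

open Complex Set Filter Topology

namespace Pool.Agent.H50.IU

/-- functions with bounded derivative are Lipschitz on the disc -/
lemma lip_ball {f : ℂ → ℂ} {N : ℝ} (hd : DifferentiableOn ℂ f (Metric.ball 0 1))
    (hN : ∀ z ∈ Metric.ball (0 : ℂ) 1, ‖deriv f z‖ ≤ N) :
    ∀ z ∈ Metric.ball (0 : ℂ) 1, ∀ w ∈ Metric.ball (0 : ℂ) 1, ‖f w - f z‖ ≤ N * ‖w - z‖ := by
  intro z hz w hw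
  exact (convex_ball (0 : ℂ) 1).norm_image_sub_le_of_norm_deriv_le
    (fun x hx => hd.differentiableAt (Metric.isOpen_ball.mem_nhds hx)) hN hz hw

lemma bdd_ball {C r : ℝ} {f : ℂ → ℂ} (hf : P C r f) :
    ∃ N : ℝ, 0 ≤ N ∧ (∀ z ∈ Metric.ball (0 : ℂ) 1, ‖f z‖ ≤ N) ∧
      ∀ z ∈ Metric.ball (0 : ℂ) 1, ∀ w ∈ Metric.ball (0 : ℂ) 1, ‖f w - f z‖ ≤ N * ‖w - z‖ := by
  obtain ⟨N, hN⟩ := hf.bdd
  have h0 : (0 : ℂ) ∈ Metric.ball (0 : ℂ) 1 := by simp
  have hN0 : 0 ≤ N := (norm_nonneg _).trans (hN 0 h0)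
  have hl := lip_ball hf.diff hN
  refine ⟨N, hN0, fun z hz => ?_, hl⟩
  have h1 := hl 0 h0 z hz
  rw [hf.zero, sub_zero, sub_zero] at h1
  have h2 : ‖z‖ < 1 := by rwa [mem_ball_zero_iff] at hz
  nlinarith

/-- E: the primitive exists -/
theorem exists_prim {C r : ℝ} {f : ℂ → ℂ} (hf : P C r f) : ∃ g, Prim f g := by
  obtain ⟨N, hN0, hN, -⟩ := bdd_ball hf
  have h0 : (0 : ℂ) ∈ Metric.ball (0 : ℂ) 1 := by simp
  have hE : DifferentiableOn ℂ (fun z => exp (f z)) (Metric.ball 0 1) := hf.diff.cexp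
  obtain ⟨g₀, hg₀⟩ := hE.isExactOn_ball
  have hb : ∀ z ∈ Metric.ball (0 : ℂ) 1, ‖exp (f z)‖ ≤ Real.exp N := by
    intro z hz
    rw [norm_exp]
    exact Real.exp_le_exp.2 ((re_le_norm _).trans (hN z hz))
  have hL : LipschitzOnWith (Real.exp N).toNNReal (fun z => g₀ z - g₀ 0) (Metric.ball (0 : ℂ) 1) := by
    refine LipschitzOnWith.of_dist_le_mul fun x hx y hy => ?_
    rw [dist_eq_norm, dist_eq_norm, Real.coe_toNNReal _ (Real.exp_pos N).le]
    exact (convex_ball (0 : ℂ) 1).norm_image_sub_le_of_norm_hasDerivWithin_le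
      (f := fun z => g₀ z - g₀ 0) (f' := fun z => exp (f z))
      (fun w hw => ((hg₀ w hw).sub_const _).hasDerivWithinAt) hb hy hx
  obtain ⟨g, hg, hgE⟩ := hL.extend_finite_dimension
  refine ⟨g, hg.continuous.continuousOn, ?_, ?_⟩
  · rw [← hgE h0]
    simp
  · intro z hz
    refine ((hg₀ z hz).sub_const (g₀ 0)).congr_of_eventuallyEq ?_
    filter_upwards [Metric.isOpen_ball.mem_nhds hz] with w hw
    exact (hgE hw).symm

/-- an inequality on the open disc extends to the closed disc -/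
lemma le_closed {h : ℂ → ℂ} {K : ℝ} (hc : ContinuousOn h (Metric.closedBall (0 : ℂ) 1))
    (hK : ∀ z ∈ Metric.ball (0 : ℂ) 1, ‖h z‖ ≤ K) :
    ∀ z ∈ Metric.closedBall (0 : ℂ) 1, ‖h z‖ ≤ K := by
  intro z hz
  have hcl : z ∈ closure (Metric.ball (0 : ℂ) 1) := by
    rw [closure_ball (0 : ℂ) one_ne_zero]
    exact hz
  refine ContinuousWithinAt.closure_le (f := fun z => ‖h z‖) (g := fun _ => K) hcl ?_
    continuousWithinAt_const hK
  exact ((hc z hz).mono Metric.ball_subset_closedBall).norm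

/-- E: primitives of near functions are near -/
theorem prim_close {f f' g g' : ℂ → ℂ} {A ε : ℝ} (hg : Prim f g) (hg' : Prim f' g')
    (hA : ∀ z ∈ Metric.ball (0 : ℂ) 1, ‖f z‖ ≤ A) (hε : ε ≤ 1)
    (h : ∀ z ∈ Metric.ball (0 : ℂ) 1, ‖f' z - f z‖ ≤ ε) :
    ∀ z ∈ Metric.closedBall (0 : ℂ) 1, ‖g' z - g z‖ ≤ 2 * Real.exp A * ε := by
  have h0 : (0 : ℂ) ∈ Metric.ball (0 : ℂ) 1 := by simp
  have hε0 : 0 ≤ ε := (norm_nonneg _).trans (h 0 h0)
  refine le_closed (h := fun z => g' z - g z) (hg'.cont.sub hg.cont) ?_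
  intro z hz
  have hb : ∀ w ∈ Metric.ball (0 : ℂ) 1, ‖exp (f' w) - exp (f w)‖ ≤ 2 * Real.exp A * ε := by
    intro w hw
    have e1 : exp (f' w) - exp (f w) = exp (f w) * (exp (f' w - f w) - 1) := by
      rw [mul_sub, ← exp_add, mul_one]
      congr 2
      ring
    rw [e1, norm_mul]
    have h1 : ‖exp (f w)‖ ≤ Real.exp A := by
      rw [norm_exp]
      exact Real.exp_le_exp.2 ((re_le_norm _).trans (hA w hw))
    have h2 : ‖exp (f' w - f w) - 1‖ ≤ 2 * ε :=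
      (norm_exp_sub_one_le ((h w hw).trans hε)).trans (by linarith [h w hw])
    calc ‖exp (f w)‖ * ‖exp (f' w - f w) - 1‖ ≤ Real.exp A * (2 * ε) := by gcongr
      _ = 2 * Real.exp A * ε := by ring
  have key := (convex_ball (0 : ℂ) 1).norm_image_sub_le_of_norm_hasDerivWithin_le
      (f := fun z => g' z - g z) (f' := fun z => exp (f' z) - exp (f z))
      (fun w hw => ((hg'.deriv w hw).sub (hg.deriv w hw)).hasDerivWithinAt) hb h0 hz
  simp only [hg.zero, hg'.zero, sub_zero] at key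
  refine key.trans ?_
  have h2 : ‖z‖ ≤ 1 := by
    rw [mem_ball_zero_iff] at hz
    exact hz.le
  have h3 : 0 ≤ 2 * Real.exp A * ε := by positivity
  nlinarith

end Pool.Agent.H50.IU
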