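import Pool.Agent.H50.IU.Ext
import Pool.Agent.H50.IT.Approx

/-! # Dilation and flattening, uniformly on the disc -/

open Complex Set Filter Topology

namespace Pool.Agent.H50.IU

open Pool.Agent.H50.IT (approx_pow approx_dil)

private lemma exists_flat' {C r : ℝ} (hC : 0 ≤ C) (hr : 0 < r) {f₀ : ℂ → ℂ} (hP : P C r f₀)
    {ε : ℝ} (hε : 0 < ε) : ∃ (f₁ : ℂ → ℂ) (κ N : ℝ), 0 < κ ∧ 0 ≤ N ∧ f₁ 0 = 0 ∧
      (∀ z : ℂ, ‖z‖ ≤ 1 → DifferentiableAt ℂ f₁ z ∧ ‖deriv f₁ z‖ ≤ N * ‖1 - z‖ ∧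
        (1 - ‖z‖ ^ 2) * ‖deriv f₁ z‖ ≤ r - κ ∧
        (1 - ‖z‖ ^ 2) * ‖deriv f₁ z‖ ≤ 1 - κ + C * (1 - ‖z‖)) ∧
      ∀ z ∈ Metric.ball (0 : ℂ) 1, ‖f₁ z - f₀ z‖ ≤ ε := by
  obtain ⟨M₀, hM₀0, hM₀, hlip⟩ := bdd_ball hP
  have hn := hP.le_r
  have hX := hP.le_C
  have hf₀ := hP.diff
  have h00 := hP.zero
  obtain ⟨ρ, hρ0, hρ1, hρδ⟩ : ∃ ρ : ℝ, 0 < ρ ∧ ρ < 1 ∧ M₀ * (1 - ρ) ≤ ε / 4 := by
    have hp : 0 < ε / 4 / (M₀ + 1) := by positivity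
    refine ⟨max (1 / 2) (1 - ε / 4 / (M₀ + 1)), ?_, ?_, ?_⟩
    · exact lt_of_lt_of_le (by norm_num) (le_max_left _ _)
    · exact max_lt (by norm_num) (by linarith)
    · have h1 := le_max_right (1 / 2 : ℝ) (1 - ε / 4 / (M₀ + 1))
      have h2 : 1 - max (1 / 2 : ℝ) (1 - ε / 4 / (M₀ + 1)) ≤ ε / 4 / (M₀ + 1) := by linarith
      calc M₀ * (1 - max (1 / 2 : ℝ) (1 - ε / 4 / (M₀ + 1))) ≤ M₀ * (ε / 4 / (M₀ + 1)) :=
            mul_le_mul_of_nonneg_left h2 hM₀0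
        _ ≤ (M₀ + 1) * (ε / 4 / (M₀ + 1)) := mul_le_mul_of_nonneg_right (by linarith) hp.le
        _ = ε / 4 := mul_div_cancel₀ _ (by positivity)
  obtain ⟨t, ht0, ht1, ht2⟩ : ∃ t : ℝ, 0 < t ∧ t ≤ 1 / 2 ∧ t * (|M₀| + 1) ≤ ε / 4 := by
    have hp : 0 < |M₀| + 1 := by positivity
    refine ⟨min (1 / 2) (ε / 4 / (|M₀| + 1)), lt_min (by norm_num) (by positivity),
      min_le_left _ _, ?_⟩
    rw [← le_div_iff₀ hp]
    exact min_le_right _ _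
  have hmem : ∀ z : ℂ, ρ * ‖z‖ < 1 →
      (ρ : ℂ) * z ∈ Metric.ball (0 : ℂ) 1 ∧ ‖(ρ : ℂ) * z‖ = ρ * ‖z‖ := by
    intro z hz
    have e1 : ‖(ρ : ℂ) * z‖ = ρ * ‖z‖ := by
      rw [norm_mul, norm_real, Real.norm_eq_abs, abs_of_pos hρ0]
    exact ⟨by rwa [mem_ball_zero_iff, e1], e1⟩
  have hlt : ∀ z : ℂ, ‖z‖ ≤ 1 → ρ * ‖z‖ < 1 := fun z hz => by nlinarith [norm_nonneg z]
  set c : ℂ := (1 - t : ℂ) * (deriv f₀ ((ρ : ℂ) * 1) * ρ) with hc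
  set κ : ℝ := t * min r 1 / 2 with hκ
  have hmin : 0 < min r 1 := lt_min hr one_pos
  have hκ0 : 0 < κ := by positivity
  have hκr : 2 * κ ≤ t * r := by
    have : t * min r 1 ≤ t * r := mul_le_mul_of_nonneg_left (min_le_left _ _) ht0.le
    linarith
  have hκ1 : 2 * κ ≤ t := by
    have : t * min r 1 ≤ t * 1 := mul_le_mul_of_nonneg_left (min_le_right _ _) ht0.le
    linarith
  obtain ⟨m, hm1, hm2⟩ : ∃ m : ℕ, ‖c‖ / ((m : ℝ) + 1) ≤ ε / 4 ∧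
      ‖c‖ / ((m : ℝ) + 1) ≤ κ / 2 := by
    have hεm : 0 < min (ε / 4) (κ / 2) := lt_min (by linarith) (by linarith)
    obtain ⟨m, hm⟩ := exists_nat_ge (‖c‖ / min (ε / 4) (κ / 2))
    have h1 : ‖c‖ / ((m : ℝ) + 1) ≤ min (ε / 4) (κ / 2) := by
      rw [div_le_iff₀ (by positivity)]
      rw [div_le_iff₀ hεm] at hm
      nlinarith
    exact ⟨m, h1.trans (min_le_left _ _), h1.trans (min_le_right _ _)⟩
  have hm0 : (0 : ℝ) < (m : ℝ) + 1 := by positivity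
  have hmc : ((m : ℂ) + 1) ≠ 0 := by exact_mod_cast Nat.succ_ne_zero m
  set f₁ : ℂ → ℂ := fun z => (1 - t : ℂ) * f₀ ((ρ : ℂ) * z) - c * (z ^ (m + 1) / ((m : ℂ) + 1))
    with hf₁
  have hder : ∀ z : ℂ, ρ * ‖z‖ < 1 → HasDerivAt f₁
      ((1 - t : ℂ) * (deriv f₀ ((ρ : ℂ) * z) * ρ) - c * z ^ m) z := by
    intro z hz
    have h1 : HasDerivAt (fun z : ℂ => (ρ : ℂ) * z) (ρ : ℂ) z := by
      simpa using (hasDerivAt_id z).const_mul (ρ : ℂ)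
    have h2 : HasDerivAt f₀ (deriv f₀ ((ρ : ℂ) * z)) ((ρ : ℂ) * z) :=
      (hf₀.differentiableAt (Metric.isOpen_ball.mem_nhds (hmem z hz).1)).hasDerivAt
    have h3 : HasDerivAt (fun z : ℂ => z ^ (m + 1) / ((m : ℂ) + 1)) (z ^ m) z := by
      have h4 := (hasDerivAt_pow (m + 1) z).div_const ((m : ℂ) + 1)
      refine h4.congr_deriv ?_
      push_cast
      exact mul_div_cancel_left₀ _ hmc
    exact ((h2.comp z h1).const_mul _).sub (h3.const_mul c)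
  have hη : ‖(1 - t : ℂ)‖ = 1 - t := by
    have : (1 - t : ℂ) = ((1 - t : ℝ) : ℂ) := by push_cast; ring
    rw [this, norm_real, Real.norm_eq_abs, abs_of_pos (by linarith)]
  have hρinv : 1 < 1 / ρ := by rw [lt_div_iff₀ hρ0]; linarith
  have hU : ∀ z ∈ Metric.ball (0 : ℂ) (1 / ρ), ρ * ‖z‖ < 1 := by
    intro z hz
    rw [mem_ball_zero_iff, lt_div_iff₀ hρ0] at hz
    linarith
  have hdU : DifferentiableOn ℂ f₁ (Metric.ball (0 : ℂ) (1 / ρ)) := fun z hz =>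
    (hder z (hU z hz)).differentiableAt.differentiableWithinAt
  have hd2 := hdU.deriv Metric.isOpen_ball
  have hd3 := hd2.deriv Metric.isOpen_ball
  have hcb : Metric.closedBall (0 : ℂ) 1 ⊆ Metric.ball (0 : ℂ) (1 / ρ) :=
    Metric.closedBall_subset_ball hρinv
  obtain ⟨N, hN⟩ := (isCompact_closedBall (0 : ℂ) 1).exists_bound_of_continuousOn
    (hd3.continuousOn.mono hcb)
  have hN0 : 0 ≤ N := (norm_nonneg _).trans (hN 0 (by simp))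
  have hderiv1 : deriv f₁ 1 = 0 := by
    rw [(hder 1 (by simpa using hρ1)).deriv, hc]
    simp
  have hest : ∀ z : ℂ, ‖z‖ ≤ 1 → (1 - ‖z‖ ^ 2) * ‖deriv f₁ z‖ ≤
      (1 - t) * ((1 - ‖z‖ ^ 2) * (ρ * ‖deriv f₀ ((ρ : ℂ) * z)‖)) + κ := by
    intro z hz
    have hz0 := norm_nonneg z
    have hz2 : 0 ≤ 1 - ‖z‖ ^ 2 := by nlinarith
    rw [(hder z (hlt z hz)).deriv]
    have h1 : ‖(1 - t : ℂ) * (deriv f₀ ((ρ : ℂ) * z) * ρ) - c * z ^ m‖ ≤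
        (1 - t) * (ρ * ‖deriv f₀ ((ρ : ℂ) * z)‖) + ‖c‖ * ‖z‖ ^ m := by
      refine (norm_sub_le _ _).trans (le_of_eq ?_)
      rw [norm_mul, hη, norm_mul, norm_mul, norm_pow, norm_real, Real.norm_eq_abs,
        abs_of_pos hρ0]
      ring
    have h2 : (1 - ‖z‖ ^ 2) * (‖c‖ * ‖z‖ ^ m) ≤ κ := by
      have h3 := approx_pow m hz0 hz
      have h4 : (1 - ‖z‖) * ‖z‖ ^ m ≤ 1 / ((m : ℝ) + 1) := by
        rw [le_div_iff₀ hm0]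
        linarith
      have h5 : (1 - ‖z‖ ^ 2) ≤ 2 * (1 - ‖z‖) := by nlinarith
      calc (1 - ‖z‖ ^ 2) * (‖c‖ * ‖z‖ ^ m) ≤ 2 * (1 - ‖z‖) * (‖c‖ * ‖z‖ ^ m) :=
            mul_le_mul_of_nonneg_right h5 (by positivity)
        _ = 2 * ‖c‖ * ((1 - ‖z‖) * ‖z‖ ^ m) := by ring
        _ ≤ 2 * ‖c‖ * (1 / ((m : ℝ) + 1)) := mul_le_mul_of_nonneg_left h4 (by positivity)
        _ = 2 * (‖c‖ / ((m : ℝ) + 1)) := by ring
        _ ≤ κ := by linarith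
    have h3 := mul_le_mul_of_nonneg_left h1 hz2
    linarith
  refine ⟨f₁, κ, N, hκ0, hN0, ?_, ?_, ?_⟩
  · simp [hf₁, h00]
  · intro z hz
    have hz0 := norm_nonneg z
    have hd := norm_nonneg (deriv f₀ ((ρ : ℂ) * z))
    have hE := hest z hz
    refine ⟨(hder z (hlt z hz)).differentiableAt, ?_, ?_, ?_⟩
    · have h1 := (convex_closedBall (0 : ℂ) 1).norm_image_sub_le_of_norm_deriv_le
        (f := deriv f₁) (C := N)
        (fun x hx => (hd2 x (hcb hx)).differentiableAt (Metric.isOpen_ball.mem_nhds (hcb hx)))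
        hN (show (1 : ℂ) ∈ Metric.closedBall (0 : ℂ) 1 by simp)
        (show z ∈ Metric.closedBall (0 : ℂ) 1 by rwa [mem_closedBall_zero_iff])
      rw [hderiv1, sub_zero, norm_sub_rev] at h1
      exact h1
    · have h1 := hn _ (hmem z (hlt z hz)).1
      rw [(hmem z (hlt z hz)).2] at h1
      have h2 : (1 - ‖z‖ ^ 2) * ρ ≤ 1 - (ρ * ‖z‖) ^ 2 := by
        have e1 : 1 - (ρ * ‖z‖) ^ 2 - (1 - ‖z‖ ^ 2) * ρ = (1 - ρ) * (1 + ρ * ‖z‖ ^ 2) := by ring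
        have e2 : 0 ≤ (1 - ρ) * (1 + ρ * ‖z‖ ^ 2) :=
          mul_nonneg (by linarith) (by positivity)
        linarith
      have h3 : (1 - ‖z‖ ^ 2) * (ρ * ‖deriv f₀ ((ρ : ℂ) * z)‖) ≤ r := by
        calc (1 - ‖z‖ ^ 2) * (ρ * ‖deriv f₀ ((ρ : ℂ) * z)‖)
            = ((1 - ‖z‖ ^ 2) * ρ) * ‖deriv f₀ ((ρ : ℂ) * z)‖ := by ring
          _ ≤ (1 - (ρ * ‖z‖) ^ 2) * ‖deriv f₀ ((ρ : ℂ) * z)‖ :=
              mul_le_mul_of_nonneg_right h2 hd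
          _ ≤ r := h1
      have h4 := mul_le_mul_of_nonneg_left h3 (by linarith : (0 : ℝ) ≤ 1 - t)
      linarith
    · have h1 := hX _ (hmem z (hlt z hz)).1
      rw [(hmem z (hlt z hz)).2] at h1
      have h3 := approx_dil hC hρ0 hρ1 hz0 hz h1
      have h4 := mul_le_mul_of_nonneg_left h3 (by linarith : (0 : ℝ) ≤ 1 - t)
      have h5 : 0 ≤ t * (C * (1 - ‖z‖)) :=
        mul_nonneg ht0.le (mul_nonneg hC (by linarith))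
      linarith
  · intro z hz
    have hz' : ‖z‖ ≤ 1 := by
      rw [mem_ball_zero_iff] at hz
      exact hz.le
    have hm2z := (hmem z (hlt z hz')).1
    have h1 : ‖f₀ ((ρ : ℂ) * z) - f₀ z‖ ≤ ε / 4 := by
      refine (hlip z hz _ hm2z).trans (le_trans ?_ hρδ)
      refine mul_le_mul_of_nonneg_left ?_ hM₀0
      have e1 : (ρ : ℂ) * z - z = -(((1 - ρ : ℝ) : ℂ) * z) := by push_cast; ring
      rw [e1, norm_neg, norm_mul, norm_real, Real.norm_eq_abs, abs_of_pos (by linarith)]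
      nlinarith [norm_nonneg z]
    have h2 := hM₀ _ hm2z
    have h3 : f₁ z - f₀ z =
        (f₀ ((ρ : ℂ) * z) - f₀ z) - (t : ℂ) * f₀ ((ρ : ℂ) * z) -
          c * (z ^ (m + 1) / ((m : ℂ) + 1)) := by
      simp only [hf₁]
      ring
    rw [h3]
    have h4 : ‖(t : ℂ) * f₀ ((ρ : ℂ) * z)‖ ≤ ε / 4 := by
      rw [norm_mul, norm_real, Real.norm_eq_abs, abs_of_pos ht0]
      have h5 : ‖f₀ ((ρ : ℂ) * z)‖ ≤ |M₀| + 1 := by
        have := le_abs_self M₀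
        linarith
      calc t * ‖f₀ ((ρ : ℂ) * z)‖ ≤ t * (|M₀| + 1) := mul_le_mul_of_nonneg_left h5 ht0.le
        _ ≤ ε / 4 := ht2
    have h7 : ‖c * (z ^ (m + 1) / ((m : ℂ) + 1))‖ ≤ ε / 4 := by
      have q1 : ‖((m : ℂ) + 1)‖ = (m : ℝ) + 1 := by
        have : ((m : ℂ) + 1) = (((m : ℝ) + 1 : ℝ) : ℂ) := by push_cast; ring
        rw [this, norm_real, Real.norm_eq_abs, abs_of_pos hm0]
      rw [norm_mul, norm_div, norm_pow, q1]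
      have q2 : ‖z‖ ^ (m + 1) ≤ 1 := pow_le_one₀ (norm_nonneg z) hz'
      calc ‖c‖ * (‖z‖ ^ (m + 1) / ((m : ℝ) + 1)) ≤ ‖c‖ * (1 / ((m : ℝ) + 1)) :=
            mul_le_mul_of_nonneg_left (div_le_div_of_nonneg_right q2 hm0.le) (norm_nonneg _)
        _ = ‖c‖ / ((m : ℝ) + 1) := by ring
        _ ≤ ε / 4 := hm1
    have h6 := norm_sub_le (f₀ ((ρ : ℂ) * z) - f₀ z) ((t : ℂ) * f₀ ((ρ : ℂ) * z))
    have h8 := norm_sub_le ((f₀ ((ρ : ℂ) * z) - f₀ z) - (t : ℂ) * f₀ ((ρ : ℂ) * z))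
      (c * (z ^ (m + 1) / ((m : ℂ) + 1)))
    linarith

/-- F: dilation and flattening, uniformly on the disc -/
theorem exists_flat {C r : ℝ} (hC : 0 ≤ C) (hr : 0 < r) {f : ℂ → ℂ} (hf : P C r f)
    {ε : ℝ} (hε : 0 < ε) : ∃ (f₁ : ℂ → ℂ) (κ N : ℝ), 0 < κ ∧ 0 ≤ N ∧ Flat C r κ N f₁ ∧
      ∀ z ∈ Metric.ball (0 : ℂ) 1, ‖f₁ z - f z‖ ≤ ε := by
  obtain ⟨f₁, κ, N, hκ, hN, h0, h1, h2⟩ := exists_flat' hC hr hf hε
  exact ⟨f₁, κ, N, hκ, hN, ⟨h0, fun z hz => (h1 z hz).1, fun z hz => (h1 z hz).2.1,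
    fun z hz => (h1 z hz).2.2.1, fun z hz => (h1 z hz).2.2.2⟩, h2⟩

end Pool.Agent.H50.IU
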