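import Pool.Agent.H50.IU.Ins0
import Pool.Agent.H50.IT.Dense

/-! # One fold inserted: the class -/

open Complex Set Filter Topology

namespace Pool.Agent.H50.IU

open Pool.Agent.H50.IH (U norm_add_pos norm_add_le_two U_re U_re_pos norm_U hasDerivAt_U
  norm_U_deriv re_div' norm_div'')
open Pool.Agent.H50.IT (Fold U_re_near)

lemma norm_deriv_U (z : ℂ) : ‖-2 / (1 + z) ^ 2‖ = 2 / ‖1 + z‖ ^ 2 := by
  rw [norm_div, norm_neg, norm_pow]
  have : ‖(2 : ℂ)‖ = 2 := by simp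
  rw [this]

theorem hasDerivAt_ins {C₁ η a s : ℝ} (hs : 0 < s) {β φ g f₁ : ℂ → ℂ} {ζ : ℂ}
    (F : Fold C₁ η a s β φ g ζ) (h₁ : ∀ z : ℂ, ‖z‖ ≤ 1 → DifferentiableAt ℂ f₁ z)
    {z : ℂ} (hz : ‖z‖ < 1) :
    HasDerivAt (ins f₁ β s)
      (deriv f₁ z + φ (U z / (s : ℂ)) / (s : ℂ) * (-2 / (1 + z) ^ 2)) z := by
  have hU := U_re_pos hz
  have hne : 1 + z ≠ 0 := norm_pos_iff.1 (norm_add_pos hz)
  have h1 : HasDerivAt (fun z => U z / (s : ℂ)) (-2 / (1 + z) ^ 2 / (s : ℂ)) z :=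
    (hasDerivAt_U hne).div_const _
  have h2 := (F.dβ (U z / (s : ℂ)) (by rw [re_div']; positivity)).comp z h1
  have h3 := (h₁ z hz.le).hasDerivAt.add (h2.sub_const (β (1 / (s : ℂ))))
  refine h3.congr_deriv ?_
  ring

theorem ins_P {C₁ C r κ N c : ℝ} (hC₁ : 100 ≤ C₁) (hκ : 0 < κ) (hN : 0 ≤ N) (hc : 0 < c)
    (hc4 : c ≤ 1 / 4) (hcC : 1 + 4 * c ≤ C) (hcr : 1 + 4 * c ≤ r)
    {f₁ : ℂ → ℂ} (h₁ : Flat C r κ N f₁) {ρ₀ ε : ℝ} (hρ₀ : ρ₀ < 1) (hε : 0 < ε) :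
    ∃ s₀ > 0, ∀ s : ℝ, 0 < s → s ≤ s₀ → ∀ (a : ℝ) (β φ g : ℂ → ℂ) (ζ : ℂ), 0 < a →
      Fold C₁ c a s β φ g ζ → P C r (ins f₁ β s) ∧
      ∀ z : ℂ, ‖z‖ ≤ ρ₀ → ‖ins f₁ β s z - f₁ z‖ ≤ ε := by
  have hC0 : 0 < C₁ := by linarith
  set δ' : ℝ := c / (4 * (N + 1)) with hδ'
  have hδ'0 : 0 < δ' := by positivity
  have hδ'c : 4 * δ' ≤ c := by
    have : 4 * δ' = c / (N + 1) := by rw [hδ']; field_simp
    rw [this]
    exact div_le_self hc.le (by linarith)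
  have hδN : 2 * δ' * N ≤ c / 2 := by
    have : 2 * δ' * N = c / 2 * (N / (N + 1)) := by
      rw [hδ']; field_simp; norm_num
    rw [this]
    have : N / (N + 1) ≤ 1 := by
      rw [div_le_one (by linarith)]; linarith
    nlinarith
  have hρ1 : 0 < 1 - ρ₀ := by linarith
  obtain ⟨s₀, hs₀, k1, k2, k3, k4, k5, k6⟩ : ∃ s₀ : ℝ, 0 < s₀ ∧ C₁ * s₀ ≤ δ' / 2 ∧
      8 * C₁ * s₀ ≤ κ * δ' ∧ 4 * C₁ * s₀ ≤ ε * (1 - ρ₀) ∧ C₁ * s₀ ≤ (1 - ρ₀) / 2 ∧
      C₁ * s₀ ≤ 1 ∧ 2 * C₁ * s₀ ≤ ε := by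
    refine ⟨min (min (min (δ' / 2) (κ * δ' / 8)) (min (ε * (1 - ρ₀) / 4) ((1 - ρ₀) / 2)))
      (min 1 (ε / 2)) / C₁, ?_, ?_, ?_, ?_, ?_, ?_, ?_⟩
    · exact div_pos (lt_min (lt_min (lt_min (by positivity) (by positivity))
        (lt_min (by positivity) (by positivity))) (lt_min one_pos (by positivity))) hC0
    all_goals
      set m : ℝ := min (min (min (δ' / 2) (κ * δ' / 8)) (min (ε * (1 - ρ₀) / 4) ((1 - ρ₀) / 2)))
        (min 1 (ε / 2)) with hm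
      have e0 : C₁ * (m / C₁) = m := by field_simp
    · rw [e0]
      exact (min_le_left _ _).trans ((min_le_left _ _).trans (min_le_left _ _))
    · have : m ≤ κ * δ' / 8 := (min_le_left _ _).trans ((min_le_left _ _).trans (min_le_right _ _))
      linarith
    · have : m ≤ ε * (1 - ρ₀) / 4 :=
        (min_le_left _ _).trans ((min_le_right _ _).trans (min_le_left _ _))
      linarith
    · rw [e0]
      exact (min_le_left _ _).trans ((min_le_right _ _).trans (min_le_right _ _))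
    · rw [e0]
      exact (min_le_right _ _).trans (min_le_left _ _)
    · have : m ≤ ε / 2 := (min_le_right _ _).trans (min_le_right _ _)
      linarith
  refine ⟨s₀, hs₀, ?_⟩
  intro s hs hss a β φ g ζ ha F
  have hCs : C₁ * s ≤ C₁ * s₀ := by gcongr
  have hdf : ∀ z : ℂ, ‖z‖ < 1 → HasDerivAt (ins f₁ β s)
      (deriv f₁ z + φ (U z / (s : ℂ)) / (s : ℂ) * (-2 / (1 + z) ^ 2)) z :=
    fun z hz => hasDerivAt_ins hs F h₁.diff hz
  have hre : ∀ z : ℂ, ‖z‖ < 1 → 0 ≤ (U z / (s : ℂ)).re := fun z hz => by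
    have := U_re_pos hz
    rw [re_div']; positivity
  have hone : ∀ z : ℂ, ‖z‖ < 1 → 0 ≤ 1 - ‖z‖ ^ 2 := fun z hz => by
    nlinarith [norm_nonneg z]
  have htot : ∀ z : ℂ, ‖z‖ < 1 → (1 - ‖z‖ ^ 2) * ‖deriv (ins f₁ β s) z‖ ≤
      (1 - ‖z‖ ^ 2) * ‖deriv f₁ z‖ + 2 * (U z).re * (‖φ (U z / (s : ℂ))‖ / s) := by
    intro z hz
    rw [(hdf z hz).deriv]
    have h2 := mul_le_mul_of_nonneg_left
      (norm_add_le (deriv f₁ z) (φ (U z / (s : ℂ)) / (s : ℂ) * (-2 / (1 + z) ^ 2))) (hone z hz)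
    rw [mul_add, norm_mul, norm_div'' _ hs] at h2
    have h3 := norm_U_deriv z
    have h4 : (1 - ‖z‖ ^ 2) * (‖φ (U z / (s : ℂ))‖ / s * ‖-2 / (1 + z) ^ 2‖) =
        2 * (U z).re * (‖φ (U z / (s : ℂ))‖ / s) := by rw [← h3]; ring
    rw [h4] at h2
    exact h2
  have hA : ∀ z : ℂ, ‖z‖ < 1 → ‖1 - z‖ ≤ δ' →
      (1 - ‖z‖ ^ 2) * ‖deriv (ins f₁ β s) z‖ ≤ 1 + (1 + 3 * c) * (1 - ‖z‖) := by
    intro z hz hzd
    have hv : 0 < 1 - ‖z‖ := by linarith
    have hUp := U_re_pos hz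
    have e1 := htot z hz
    have e2 : (1 - ‖z‖ ^ 2) * ‖deriv f₁ z‖ ≤ c / 2 * (1 - ‖z‖) := by
      have g1 : 1 - ‖z‖ ^ 2 ≤ 2 * (1 - ‖z‖) := by nlinarith [norm_nonneg z]
      have g2 : ‖deriv f₁ z‖ ≤ N * δ' := (h₁.flat z hz.le).trans (by gcongr)
      calc (1 - ‖z‖ ^ 2) * ‖deriv f₁ z‖ ≤ (2 * (1 - ‖z‖)) * (N * δ') :=
            mul_le_mul g1 g2 (norm_nonneg _) (by linarith)
        _ = (2 * δ' * N) * (1 - ‖z‖) := by ring
        _ ≤ c / 2 * (1 - ‖z‖) := by gcongr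
    have e3 := U_re_near hz hzd (by linarith)
    have e4 : 2 * (U z).re * (‖φ (U z / (s : ℂ))‖ / s) ≤ 1 + (1 + 2 * c) * (1 - ‖z‖) := by
      have g0 := F.norm (U z / (s : ℂ)) (hre z hz)
      rw [re_div'] at g0
      have g1 : 2 * ((U z).re / s) * ‖φ (U z / (s : ℂ))‖ =
          2 * (U z).re * (‖φ (U z / (s : ℂ))‖ / s) := by ring
      have g2 : (2 + c) * s * ((U z).re / s) = (1 + c / 2) * (2 * (U z).re) := by
        field_simp
      rw [g1, g2] at g0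
      have g3 : (1 + c / 2) * (2 * (U z).re) ≤ (1 + c / 2) * ((1 + 2 * δ') * (1 - ‖z‖)) := by
        gcongr
      have g4 : (1 + c / 2) * (1 + 2 * δ') ≤ 1 + 2 * c := by nlinarith
      have g5 : (1 + c / 2) * (1 + 2 * δ') * (1 - ‖z‖) ≤ (1 + 2 * c) * (1 - ‖z‖) := by gcongr
      linarith
    have e5 : 0 ≤ c * (1 - ‖z‖) := by positivity
    linarith
  have hB : ∀ z : ℂ, ‖z‖ < 1 → δ' < ‖1 - z‖ →
      2 * (U z).re * (‖φ (U z / (s : ℂ))‖ / s) ≤ κ / 2 := by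
    intro z hz hcase
    have hUp := U_re_pos hz
    have hp := norm_add_pos hz
    have hp2 := norm_add_le_two hz
    have hU : δ' / 2 ≤ ‖U z‖ := by
      rw [norm_U, le_div_iff₀ hp]
      nlinarith
    have hU0 : 0 < ‖U z‖ := by linarith
    have hfar := F.φ_far (U z / (s : ℂ)) (hre z hz)
      (by rw [norm_div'' _ hs, le_div_iff₀ hs]; linarith)
    rw [norm_div'' _ hs] at hfar
    have hreU : (U z).re ≤ ‖U z‖ := (le_abs_self _).trans (abs_re_le_norm _)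
    have g1 : ‖φ (U z / (s : ℂ))‖ / s ≤ C₁ * s / ‖U z‖ ^ 2 := by
      rw [div_le_iff₀ hs]
      refine hfar.trans (le_of_eq ?_)
      field_simp
    calc 2 * (U z).re * (‖φ (U z / (s : ℂ))‖ / s) ≤ 2 * ‖U z‖ * (C₁ * s / ‖U z‖ ^ 2) := by
          gcongr
      _ = 2 * C₁ * s / ‖U z‖ := by field_simp
      _ ≤ κ / 2 := by
          rw [div_le_iff₀ hU0]
          nlinarith
  refine ⟨⟨?_, ?_, ?_, ?_, ?_⟩, ?_⟩
  · intro z hz
    have hz' : ‖z‖ < 1 := by simpa using hz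
    exact (hdf z hz').differentiableAt.differentiableWithinAt
  · have hU0 : U 0 = 1 := by simp [U]
    rw [ins, h₁.zero, hU0]
    ring
  · refine ⟨2 * N + (2 * C₁ / (a ^ 2 * s) + 2 * C₁ * s), fun z hz => ?_⟩
    have hz' : ‖z‖ < 1 := by simpa using hz
    rw [(hdf z hz').deriv]
    have hp := norm_add_pos hz'
    have e1 : ‖deriv f₁ z‖ ≤ 2 * N := by
      have g1 := h₁.flat z hz'.le
      have g2 : ‖1 - z‖ ≤ 2 := by
        have := norm_sub_le (1 : ℂ) z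
        rw [norm_one] at this
        linarith
      have g3 : N * ‖1 - z‖ ≤ N * 2 := by gcongr
      linarith
    have e2 : ‖φ (U z / (s : ℂ)) / (s : ℂ) * (-2 / (1 + z) ^ 2)‖ ≤
        2 * C₁ / (a ^ 2 * s) + 2 * C₁ * s := by
      rw [norm_mul, norm_div'' _ hs, norm_deriv_U]
      have hpos1 : 0 < 2 * C₁ / (a ^ 2 * s) := by positivity
      have hpos2 : 0 < 2 * C₁ * s := by positivity
      rcases le_or_gt 1 ‖1 + z‖ with hcase | hcase
      · have g1 := F.φ_le (U z / (s : ℂ)) (hre z hz')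
        have g2 : 2 / ‖1 + z‖ ^ 2 ≤ 2 := div_le_self (by norm_num) (one_le_pow₀ hcase)
        have g3 : ‖φ (U z / (s : ℂ))‖ / s * (2 / ‖1 + z‖ ^ 2) ≤ C₁ / a ^ 2 / s * 2 := by gcongr
        have g4 : C₁ / a ^ 2 / s * 2 = 2 * C₁ / (a ^ 2 * s) := by field_simp
        linarith
      · have g1 : 1 ≤ ‖1 - z‖ := by
          have h2 : ‖(2 : ℂ)‖ ≤ ‖1 - z‖ + ‖1 + z‖ := by
            have e : (2 : ℂ) = (1 - z) + (1 + z) := by ring
            rw [e]
            exact norm_add_le _ _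
          have h3 : ‖(2 : ℂ)‖ = 2 := by simp
          rw [h3] at h2
          linarith
        have g2 : 1 ≤ ‖U z‖ := by
          rw [norm_U, le_div_iff₀ hp]
          linarith
        have hfar := F.φ_far (U z / (s : ℂ)) (hre z hz')
          (by rw [norm_div'' _ hs, le_div_iff₀ hs]; linarith)
        rw [norm_div'' _ hs] at hfar
        have g3 : ‖φ (U z / (s : ℂ))‖ / s ≤ C₁ * s * ‖1 + z‖ ^ 2 := by
          rw [div_le_iff₀ hs]
          refine hfar.trans ?_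
          rw [norm_U]
          have g4 : C₁ / (‖1 - z‖ / ‖1 + z‖ / s) ^ 2 =
              C₁ * s * ‖1 + z‖ ^ 2 * s / ‖1 - z‖ ^ 2 := by
            have : ‖1 - z‖ ≠ 0 := by linarith
            field_simp
          rw [g4]
          exact div_le_self (by positivity) (one_le_pow₀ g1)
        calc ‖φ (U z / (s : ℂ))‖ / s * (2 / ‖1 + z‖ ^ 2) ≤
              C₁ * s * ‖1 + z‖ ^ 2 * (2 / ‖1 + z‖ ^ 2) := by gcongr
          _ = 2 * C₁ * s := by field_simp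
          _ ≤ _ := by linarith
    exact (norm_add_le _ _).trans (add_le_add e1 e2)
  · intro z hz
    have hz' : ‖z‖ < 1 := by simpa using hz
    by_cases hcase : ‖1 - z‖ ≤ δ'
    · refine (hA z hz' hcase).trans ?_
      have e5 : 1 - ‖z‖ ≤ ‖1 - z‖ := by
        have := norm_sub_norm_le (1 : ℂ) z
        rwa [norm_one] at this
      have e6 : 1 - ‖z‖ ≤ c / 4 := by linarith
      have e7 : (1 + 3 * c) * (1 - ‖z‖) ≤ (1 + 3 * c) * (c / 4) := by gcongr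
      nlinarith
    · push Not at hcase
      have e1 := h₁.le_r z hz'.le
      have e2 := hB z hz' hcase
      have e3 := htot z hz'
      linarith
  · intro z hz
    have hz2 : ‖z‖ < 1 := by simpa using hz
    have hv : 0 < 1 - ‖z‖ := by linarith
    by_cases hcase : ‖1 - z‖ ≤ δ'
    · refine (hA z hz2 hcase).trans ?_
      have : (1 + 3 * c) * (1 - ‖z‖) ≤ C * (1 - ‖z‖) := by
        apply mul_le_mul_of_nonneg_right _ hv.le
        linarith
      linarith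
    · push Not at hcase
      have e1 := h₁.le_C z hz2.le
      have e2 := hB z hz2 hcase
      have e3 := htot z hz2
      linarith
  · intro z hz
    have hz' : ‖z‖ < 1 := by linarith
    have e1 : ins f₁ β s z - f₁ z = β (U z / (s : ℂ)) - β (1 / (s : ℂ)) := by
      rw [ins]; ring
    rw [e1]
    have hp := norm_add_pos hz'
    have hp2 := norm_add_le_two hz'
    have e2 : 1 - ρ₀ ≤ ‖1 - z‖ := by
      have := norm_sub_norm_le (1 : ℂ) z
      rw [norm_one] at this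
      linarith
    have e3 : (1 - ρ₀) / 2 ≤ ‖U z‖ := by
      rw [norm_U, le_div_iff₀ hp]
      nlinarith
    have hU0 : 0 < ‖U z‖ := by linarith
    have e4 := F.β_far (U z / (s : ℂ)) (hre z hz')
      (by rw [norm_div'' _ hs, le_div_iff₀ hs]; linarith)
    rw [norm_div'' _ hs] at e4
    have e5 : C₁ / (‖U z‖ / s) ≤ ε / 2 := by
      have : C₁ / (‖U z‖ / s) = C₁ * s / ‖U z‖ := by field_simp
      rw [this, div_le_iff₀ hU0]
      nlinarith
    have hs1 : ‖(1 : ℂ) / (s : ℂ)‖ = 1 / s := by rw [norm_div'' _ hs, norm_one]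
    have e6 := F.β_far (1 / (s : ℂ)) (by rw [re_div', one_re]; positivity)
      (by rw [hs1, le_div_iff₀ hs]; linarith)
    rw [hs1] at e6
    have e7 : C₁ / (1 / s) ≤ ε / 2 := by
      have : C₁ / (1 / s) = C₁ * s := by field_simp
      rw [this]
      linarith
    have := norm_sub_le (β (U z / (s : ℂ))) (β (1 / (s : ℂ)))
    linarith

end Pool.Agent.H50.IU
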