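import Pool.Agent.H50.IU.Ins0

/-! # The primitives after the insertion of one fold are near -/

open Complex Set Filter Topology

namespace Pool.Agent.H50.IU

open Pool.Agent.H50.IH (U)
open Pool.Agent.H50.IT (Fold)

/-- the factor of one fold, in the disc -/
lemma near_tau {C₁ η a s : ℝ} (hC₁ : 100 ≤ C₁) (hs : 0 < s) (hs1 : C₁ * s ≤ 1 / 2)
    {β φ g : ℂ → ℂ} {ζ : ℂ} (F : Fold C₁ η a s β φ g ζ) {z : ℂ} (hz : ‖z‖ < 1) :
    ‖exp (β (U z / (s : ℂ)) - β (1 / (s : ℂ))) - 1‖ ≤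
      10 * C₁ ^ 2 * (Real.sqrt s / Real.sqrt (1 - ‖z‖)) := by
  have hC0 : 0 < C₁ := by linarith
  have hz0 := norm_nonneg z
  obtain ⟨u, hu⟩ : ∃ u : ℝ, u = 1 - ‖z‖ := ⟨_, rfl⟩
  have hu0 : 0 < u := by rw [hu]; linarith
  have hu1 : u ≤ 1 := by rw [hu]; linarith
  have hp := Pool.Agent.H50.IH.norm_add_pos hz
  have h2 := Pool.Agent.H50.IH.norm_add_le_two hz
  have hU1 : u / 2 ≤ ‖U z‖ := by
    rw [Pool.Agent.H50.IH.norm_U, le_div_iff₀ hp]
    have h3 : u ≤ ‖1 - z‖ := by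
      have := norm_sub_norm_le (1 : ℂ) z
      rw [norm_one] at this
      rw [hu]; exact this
    nlinarith
  have hU2 : u / 4 ≤ (U z).re := by
    rw [Pool.Agent.H50.IH.U_re, le_div_iff₀ (by positivity)]
    have h3 : ‖1 + z‖ ^ 2 ≤ 4 := by nlinarith
    have h4 : u ≤ 1 - ‖z‖ ^ 2 := by rw [hu]; nlinarith
    nlinarith
  have hsC : (s : ℂ) ≠ 0 := by exact_mod_cast hs.ne'
  have hn1 : ‖(1 : ℂ) / (s : ℂ)‖ = 1 / s := by
    rw [norm_div, norm_one, Complex.norm_real, Real.norm_of_nonneg hs.le]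
  have hre1 : ((1 : ℂ) / (s : ℂ)).re = 1 / s := by
    rw [show (1 : ℂ) / (s : ℂ) = ((1 / s : ℝ) : ℂ) by push_cast; rfl, Complex.ofReal_re]
  have hβ1 : ‖β (1 / (s : ℂ))‖ ≤ C₁ * s := by
    have h3 := F.β_far (1 / (s : ℂ)) (by rw [hre1]; positivity)
      (by rw [hn1, le_div_iff₀ hs]; linarith)
    rw [hn1] at h3
    calc _ ≤ _ := h3
      _ = C₁ * s := by field_simp
  have hnw : ‖U z / (s : ℂ)‖ = ‖U z‖ / s := by
    rw [norm_div, Complex.norm_real, Real.norm_of_nonneg hs.le]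
  have hrew : (U z / (s : ℂ)).re = (U z).re / s := by
    rw [Complex.div_ofReal_re]
  have hw0 : 0 < (U z / (s : ℂ)).re := by
    rw [hrew]; exact div_pos (lt_of_lt_of_le (by positivity) hU2) hs
  obtain ⟨X, hX⟩ : ∃ X : ℝ, X = Real.sqrt s / Real.sqrt u := ⟨_, rfl⟩
  have hsu : 0 < Real.sqrt u := Real.sqrt_pos.2 hu0
  have hss : 0 < Real.sqrt s := Real.sqrt_pos.2 hs
  have hX0 : 0 < X := by rw [hX]; positivity
  have hX2 : X ^ 2 = s / u := by
    rw [hX, div_pow, Real.sq_sqrt hs.le, Real.sq_sqrt hu0.le]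
  rw [← hu, ← hX]
  rcases le_or_gt (3 * C₁ * s) u with hcase | hcase
  · have h3 : ‖β (U z / (s : ℂ))‖ ≤ 2 * (C₁ * s) / u := by
      have h4 : u / 2 / s ≤ ‖U z / (s : ℂ)‖ := by
        rw [hnw]; exact div_le_div_of_nonneg_right hU1 hs.le
      have h5 : C₁ ≤ ‖U z / (s : ℂ)‖ := by
        refine le_trans ?_ h4
        rw [le_div_iff₀ hs]; nlinarith
      refine (F.β_far _ hw0.le h5).trans ?_
      calc C₁ / ‖U z / (s : ℂ)‖ ≤ C₁ / (u / 2 / s) :=
            div_le_div_of_nonneg_left hC0.le (by positivity) h4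
        _ = 2 * (C₁ * s) / u := by field_simp
    have h4 : X ^ 2 ≤ 1 / (3 * C₁) := by
      rw [hX2, div_le_div_iff₀ hu0 (by positivity)]; linarith
    have h5 : ‖β (U z / (s : ℂ)) - β (1 / (s : ℂ))‖ ≤ 3 * C₁ * X ^ 2 := by
      refine (norm_sub_le _ _).trans ?_
      have h6 : C₁ * s ≤ C₁ * s / u := by
        rw [le_div_iff₀ hu0]
        have : 0 < C₁ * s := by positivity
        nlinarith
      have h7 : 2 * (C₁ * s) / u = 2 * (C₁ * s / u) := by ring
      have h8 : 3 * C₁ * X ^ 2 = 3 * (C₁ * s / u) := by rw [hX2]; ring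
      rw [h8]
      rw [h7] at h3
      linarith
    have h6 : 3 * C₁ * X ^ 2 ≤ 1 := by
      have : 3 * C₁ * X ^ 2 ≤ 3 * C₁ * (1 / (3 * C₁)) :=
        mul_le_mul_of_nonneg_left h4 (by positivity)
      refine this.trans (le_of_eq ?_)
      field_simp
    have h7 := Complex.norm_exp_sub_one_le (h5.trans h6)
    have h8 : X ≤ 1 := by
      by_contra h9
      push Not at h9
      nlinarith
    have h9 : X ^ 2 ≤ X := by nlinarith
    calc _ ≤ _ := h7
      _ ≤ 2 * (3 * C₁ * X ^ 2) := by linarith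
      _ ≤ 2 * (3 * C₁ * X) := by
        have := mul_le_mul_of_nonneg_left h9 (show 0 ≤ 3 * C₁ by positivity)
        linarith
      _ ≤ 10 * C₁ ^ 2 * X := by
        have : 6 * C₁ ≤ 10 * C₁ ^ 2 := by nlinarith
        have := mul_le_mul_of_nonneg_right this hX0.le
        linarith
  · have h3 : ‖exp (β (U z / (s : ℂ)))‖ ≤ C₁ * (1 + 2 * X) := by
      refine (F.exp_re _ hw0).trans ?_
      refine mul_le_mul_of_nonneg_left ?_ hC0.le
      have h4 : 1 / (2 * X) ≤ Real.sqrt (U z / (s : ℂ)).re := by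
        apply Real.le_sqrt_of_sq_le
        rw [hrew, div_pow, mul_pow, hX2]
        calc (1 : ℝ) ^ 2 / (2 ^ 2 * (s / u)) = u / 4 / s := by field_simp; norm_num
          _ ≤ (U z).re / s := div_le_div_of_nonneg_right hU2 hs.le
      have h5 : 1 / Real.sqrt (U z / (s : ℂ)).re ≤ 1 / (1 / (2 * X)) :=
        div_le_div_of_nonneg_left one_pos.le (by positivity) h4
      rw [one_div_one_div] at h5
      linarith
    have h4 : ‖exp (-β (1 / (s : ℂ)))‖ ≤ 2 := by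
      rw [Complex.norm_exp]
      have h5 : (-β (1 / (s : ℂ))).re ≤ 1 / 2 := by
        have := (le_abs_self _).trans (Complex.abs_re_le_norm (-β (1 / (s : ℂ))))
        rw [norm_neg] at this
        linarith
      calc Real.exp _ ≤ Real.exp (1 / 2) := Real.exp_le_exp.2 h5
        _ ≤ 2 := by
          have h6 := Real.exp_one_lt_d9
          have h7 : Real.exp (1 / 2) ^ 2 = Real.exp 1 := by
            rw [← Real.exp_nat_mul]; norm_num
          have h8 := Real.exp_pos (1 / 2)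
          nlinarith
    have h5 : ‖exp (β (U z / (s : ℂ)) - β (1 / (s : ℂ)))‖ ≤ C₁ * (1 + 2 * X) * 2 := by
      rw [sub_eq_add_neg, Complex.exp_add, norm_mul]
      exact mul_le_mul h3 h4 (norm_nonneg _) (by positivity)
    have h6 : ‖exp (β (U z / (s : ℂ)) - β (1 / (s : ℂ))) - 1‖ ≤ C₁ * (1 + 2 * X) * 2 + 1 := by
      refine (norm_sub_le _ _).trans ?_
      rw [norm_one]; linarith
    have h7 : 1 ≤ 2 * C₁ * X := by
      have h8 : 1 / (3 * C₁) ≤ X ^ 2 := by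
        rw [hX2, div_le_div_iff₀ (by positivity) hu0]; linarith
      have h9 : 1 ≤ 3 * C₁ * X ^ 2 := by
        rw [div_le_iff₀ (by positivity)] at h8; linarith
      have h10 : (1 : ℝ) ≤ (2 * C₁ * X) ^ 2 := by
        have : 3 * C₁ * X ^ 2 ≤ (2 * C₁ * X) ^ 2 := by
          have h11 : 3 * C₁ ≤ 4 * C₁ ^ 2 := by nlinarith
          have := mul_le_mul_of_nonneg_right h11 (sq_nonneg X)
          linarith [show (2 * C₁ * X) ^ 2 = 4 * C₁ ^ 2 * X ^ 2 by ring]
        linarith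
      by_contra h11
      push Not at h11
      have h12 : 0 < 2 * C₁ * X := by positivity
      nlinarith
    refine h6.trans ?_
    have h8 : C₁ * 1 ≤ C₁ * (2 * C₁ * X) := mul_le_mul_of_nonneg_left h7 hC0.le
    have h9 : 0 < C₁ * X := by positivity
    have h10 : 100 * (C₁ * X) ≤ C₁ * (C₁ * X) := mul_le_mul_of_nonneg_right hC₁ h9.le
    nlinarith

/-- G: the primitives are near -/
theorem ins_close {C₁ C r κ N : ℝ} (hC₁ : 100 ≤ C₁) (hN : 0 ≤ N) {f₁ g₁ : ℂ → ℂ}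
    (h₁ : Flat C r κ N f₁) (hg₁ : Prim f₁ g₁) {ε : ℝ} (hε : 0 < ε) :
    ∃ s₀ > 0, ∀ s : ℝ, 0 < s → s ≤ s₀ → ∀ (η a : ℝ) (β φ g : ℂ → ℂ) (ζ : ℂ),
      0 < a → Fold C₁ η a s β φ g ζ → ∀ G : ℂ → ℂ, Prim (ins f₁ β s) G →
      ∀ z ∈ Metric.closedBall (0 : ℂ) 1, ‖G z - g₁ z‖ ≤ ε := by
  have hC0 : 0 < C₁ := by linarith
  obtain ⟨E, hE⟩ : ∃ E : ℝ, E = Real.exp (2 * N) := ⟨_, rfl⟩
  have hE0 : 0 < E := by rw [hE]; exact Real.exp_pos _
  have hf₁ : ∀ z ∈ Metric.ball (0 : ℂ) 1, ‖exp (f₁ z)‖ ≤ E := by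
    intro z hz
    have h2 : ‖f₁ z - f₁ 0‖ ≤ 2 * N * ‖z - 0‖ := by
      refine Convex.norm_image_sub_le_of_norm_deriv_le (s := Metric.ball (0 : ℂ) 1)
        (fun w hw => ?_) (fun w hw => ?_) (convex_ball 0 1) (by simp) hz
      · exact h₁.diff w (by simpa using (mem_ball_zero_iff.1 hw).le)
      · have hw1 : ‖w‖ ≤ 1 := (mem_ball_zero_iff.1 hw).le
        refine (h₁.flat w hw1).trans ?_
        have h3 : ‖1 - w‖ ≤ 2 := by
          refine (norm_sub_le _ _).trans ?_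
          rw [norm_one]; linarith
        nlinarith
    rw [h₁.zero, sub_zero, sub_zero] at h2
    have hz1 : ‖z‖ ≤ 1 := (mem_ball_zero_iff.1 hz).le
    rw [Complex.norm_exp, hE]
    refine Real.exp_le_exp.2 ?_
    have h3 := (le_abs_self _).trans (Complex.abs_re_le_norm (f₁ z))
    nlinarith
  obtain ⟨q, hq⟩ : ∃ q : ℝ, q = ε / (20 * C₁ ^ 2 * E) := ⟨_, rfl⟩
  have hq0 : 0 < q := by rw [hq]; positivity
  refine ⟨min (1 / (2 * C₁)) (q ^ 2), lt_min (by positivity) (by positivity), ?_⟩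
  intro s hs hs0 η a β φ g ζ _ F G hG
  have hs1 : C₁ * s ≤ 1 / 2 := by
    have := hs0.trans (min_le_left _ _)
    rw [le_div_iff₀ (by positivity)] at this
    linarith
  have hsq : Real.sqrt s ≤ q := by
    refine Real.sqrt_le_iff.2 ⟨hq0.le, hs0.trans (min_le_right _ _)⟩
  obtain ⟨A, hA⟩ : ∃ A : ℝ, A = E * (10 * C₁ ^ 2 * Real.sqrt s) := ⟨_, rfl⟩
  have hA0 : 0 ≤ A := by rw [hA]; positivity
  have hAε : 2 * A ≤ ε := by
    have h3 : 2 * A ≤ 2 * (E * (10 * C₁ ^ 2 * q)) := by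
      rw [hA]
      have := mul_le_mul_of_nonneg_left hsq (show 0 ≤ 10 * C₁ ^ 2 by positivity)
      have := mul_le_mul_of_nonneg_left this hE0.le
      linarith
    refine h3.trans (le_of_eq ?_)
    rw [hq]; field_simp; norm_num
  have hD : ∀ z ∈ Metric.ball (0 : ℂ) 1, ‖exp (ins f₁ β s z) - exp (f₁ z)‖ ≤
      A / Real.sqrt (1 - ‖z‖) := by
    intro z hz
    have hz1 : ‖z‖ < 1 := mem_ball_zero_iff.1 hz
    have h3 : exp (ins f₁ β s z) - exp (f₁ z) =
        exp (f₁ z) * (exp (β (U z / (s : ℂ)) - β (1 / (s : ℂ))) - 1) := by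
      rw [ins, Complex.exp_add]; ring
    rw [h3, norm_mul]
    calc _ ≤ E * (10 * C₁ ^ 2 * (Real.sqrt s / Real.sqrt (1 - ‖z‖))) :=
          mul_le_mul (hf₁ z hz) (near_tau hC₁ hs hs1 F hz1) (norm_nonneg _) hE0.le
      _ = A / Real.sqrt (1 - ‖z‖) := by rw [hA]; ring
  intro z hz
  have hz1 : ‖z‖ ≤ 1 := by simpa using hz
  have hmem : ∀ t : ℝ, t ∈ Icc (0 : ℝ) 1 → (t : ℂ) * z ∈ Metric.closedBall (0 : ℂ) 1 := by
    intro t ht
    rw [mem_closedBall_zero_iff, norm_mul, Complex.norm_real, Real.norm_of_nonneg ht.1]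
    nlinarith [norm_nonneg z, ht.1, ht.2]
  have hmem' : ∀ t : ℝ, t ∈ Ico (0 : ℝ) 1 → (t : ℂ) * z ∈ Metric.ball (0 : ℂ) 1 := by
    intro t ht
    rw [mem_ball_zero_iff, norm_mul, Complex.norm_real, Real.norm_of_nonneg ht.1]
    nlinarith [norm_nonneg z, ht.1, ht.2]
  have hcont : ContinuousOn (fun t : ℝ => G ((t : ℂ) * z) - g₁ ((t : ℂ) * z)) (Icc 0 1) := by
    have hc : ContinuousOn (fun t : ℝ => (t : ℂ) * z) (Icc 0 1) := by fun_prop
    exact (hG.cont.comp hc hmem).sub (hg₁.cont.comp hc hmem)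
  have hder : ∀ t ∈ Ico (0 : ℝ) 1, HasDerivWithinAt
      (fun t : ℝ => G ((t : ℂ) * z) - g₁ ((t : ℂ) * z))
      ((exp (ins f₁ β s ((t : ℂ) * z)) - exp (f₁ ((t : ℂ) * z))) * z) (Ici t) t := by
    intro t ht
    have h3 : HasDerivAt (fun t : ℝ => (t : ℂ) * z) z t := by
      have := (Complex.ofRealCLM.hasDerivAt (x := t)).mul_const z
      simpa using this
    have h4 := (hG.deriv _ (hmem' t ht)).scomp t h3
    have h5 := (hg₁.deriv _ (hmem' t ht)).scomp t h3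
    have h6 := (h4.sub h5).hasDerivWithinAt (s := Ici t)
    refine h6.congr_deriv ?_
    simp only [smul_eq_mul]
    ring
  have hBc : ContinuousOn (fun t : ℝ => 2 * A * (1 - Real.sqrt (1 - t))) (Icc 0 1) := by
    fun_prop
  have hB' : ∀ t ∈ Ico (0 : ℝ) 1, HasDerivWithinAt
      (fun t : ℝ => 2 * A * (1 - Real.sqrt (1 - t))) (A / Real.sqrt (1 - t)) (Ici t) t := by
    intro t ht
    have h0 : (0 : ℝ) < 1 - t := by linarith [ht.2]
    have h3 : HasDerivAt (fun t : ℝ => 1 - t) (-1) t := by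
      simpa using (hasDerivAt_id t).const_sub 1
    have h4 := ((h3.sqrt h0.ne').const_sub 1).const_mul (2 * A)
    refine (h4.congr_deriv ?_).hasDerivWithinAt
    have h5 := Real.sqrt_pos.2 h0
    field_simp
  have hbound : ∀ t ∈ Ico (0 : ℝ) 1,
      ‖(exp (ins f₁ β s ((t : ℂ) * z)) - exp (f₁ ((t : ℂ) * z))) * z‖ ≤
        A / Real.sqrt (1 - t) := by
    intro t ht
    have h0 : (0 : ℝ) < 1 - t := by linarith [ht.2]
    rw [norm_mul]
    have h3 := hD _ (hmem' t ht)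
    have h4 : ‖(t : ℂ) * z‖ ≤ t := by
      rw [norm_mul, Complex.norm_real, Real.norm_of_nonneg ht.1]
      nlinarith [norm_nonneg z, ht.1, ht.2]
    have h5 : A / Real.sqrt (1 - ‖(t : ℂ) * z‖) ≤ A / Real.sqrt (1 - t) :=
      div_le_div_of_nonneg_left hA0 (Real.sqrt_pos.2 h0) (Real.sqrt_le_sqrt (by linarith))
    have h6 : 0 ≤ A / Real.sqrt (1 - t) := by positivity
    calc _ ≤ A / Real.sqrt (1 - t) * 1 :=
          mul_le_mul (h3.trans h5) hz1 (norm_nonneg _) h6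
      _ = _ := mul_one _
  have h7 := image_norm_le_of_norm_deriv_right_le_deriv_boundary' hcont hder
    (B := fun t : ℝ => 2 * A * (1 - Real.sqrt (1 - t))) (B' := fun t => A / Real.sqrt (1 - t))
    (by simp [hG.zero, hg₁.zero]) hBc hB' hbound (right_mem_Icc.2 zero_le_one)
  simp only [Complex.ofReal_one, one_mul, sub_self, Real.sqrt_zero, sub_zero, mul_one] at h7
  exact h7.trans hAε

end Pool.Agent.H50.IU
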