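import Pool.Agent.H50.IU.Ins0
import Pool.Agent.H50.IT.Dense

/-! # The value at `1` is taken near `1`, robustly -/

open Complex Set Filter Topology

namespace Pool.Agent.H50.IU

open Pool.Agent.H50.IH (U add_ne one_le_norm_add norm_U_lt U_U hasDerivAt_U U_sub_one)
open Pool.Agent.H50.IT (Fold pert_le exp_near norm_near)

/-- the perturbation -/
noncomputable def X (f₁ : ℂ → ℂ) (w : ℂ) : ℂ := (f₁ (U w) - 2 * log (1 + w)) - f₁ 1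

lemma exp_X (f₁ : ℂ → ℂ) {w : ℂ} (hw : 0 < w.re) :
    exp (X f₁ w) = exp (f₁ (U w) - f₁ 1) / (1 + w) ^ 2 := by
  unfold X
  have h0 : 1 + w ≠ 0 := add_ne hw
  have e : f₁ (U w) - 2 * log (1 + w) - f₁ 1 = (f₁ (U w) - f₁ 1) - 2 * log (1 + w) := by ring
  rw [e, exp_sub]
  congr 1
  rw [two_mul, exp_add, exp_log h0]
  ring

lemma rob_re {s : ℝ} (hs : 0 < s) {v : ℂ} (hv : 0 < v.re) : 0 < ((s : ℂ) * v).re := by
  rw [re_ofReal_mul]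
  exact mul_pos hs hv

lemma rob_norm {s : ℝ} (hs : 0 < s) (v : ℂ) : ‖(s : ℂ) * v‖ = s * ‖v‖ := by
  rw [norm_mul, norm_real, Real.norm_eq_abs, abs_of_pos hs]

lemma rob_comp {h : ℂ → ℂ} {d v : ℂ} {s : ℝ} (hs : 0 < s) (hv : 0 < v.re)
    (hh : HasDerivAt h d (U ((s : ℂ) * v))) :
    HasDerivAt (fun v => h (U ((s : ℂ) * v))) (d * (-2 / (1 + (s : ℂ) * v) ^ 2 * s)) v := by
  have h1 : HasDerivAt (fun v : ℂ => (s : ℂ) * v) (s : ℂ) v := by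
    simpa using (hasDerivAt_id v).const_mul (s : ℂ)
  have h2 : HasDerivAt U (-2 / (1 + (s : ℂ) * v) ^ 2) ((s : ℂ) * v) :=
    hasDerivAt_U (add_ne (rob_re hs hv))
  have h3 : HasDerivAt (fun v : ℂ => U ((s : ℂ) * v)) (-2 / (1 + (s : ℂ) * v) ^ 2 * s) v :=
    h2.comp v h1
  exact HasDerivAt.comp (h₂ := h) (h := fun v : ℂ => U ((s : ℂ) * v)) v hh h3

/-- the constant -/
noncomputable def cc (f₁ β : ℂ → ℂ) (s : ℝ) : ℂ := -2 * s * exp (f₁ 1 - β (1 / (s : ℂ)))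

lemma cc_ne (f₁ β : ℂ → ℂ) {s : ℝ} (hs : 0 < s) : cc f₁ β s ≠ 0 := by
  unfold cc
  have : (s : ℂ) ≠ 0 := ofReal_ne_zero.2 hs.ne'
  exact mul_ne_zero (mul_ne_zero (by norm_num) this) (exp_ne_zero _)

lemma rob_deriv {f₁ β G : ℂ → ℂ} {s : ℝ} (hs : 0 < s) (hG : Prim (ins f₁ β s) G) {v : ℂ}
    (hv : 0 < v.re) :
    HasDerivAt (fun v => (cc f₁ β s)⁻¹ * G (U ((s : ℂ) * v)))
      (exp (β v) * exp (X f₁ ((s : ℂ) * v))) v := by
  have hw := rob_re hs hv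
  have hne : 1 + (s : ℂ) * v ≠ 0 := add_ne hw
  have hsne : (s : ℂ) ≠ 0 := ofReal_ne_zero.2 hs.ne'
  have hz : U ((s : ℂ) * v) ∈ Metric.ball (0 : ℂ) 1 := by
    rw [mem_ball_zero_iff]; exact norm_U_lt hw
  have h1 := (rob_comp hs hv (hG.deriv _ hz)).const_mul (cc f₁ β s)⁻¹
  refine h1.congr_deriv ?_
  rw [exp_X f₁ hw]
  have e1 : ins f₁ β s (U ((s : ℂ) * v)) =
      β v + (f₁ (U ((s : ℂ) * v)) - f₁ 1) + (f₁ 1 - β (1 / (s : ℂ))) := by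
    unfold ins
    rw [U_U hne, mul_div_cancel_left₀ _ hsne]
    ring
  rw [e1, exp_add, exp_add]
  unfold cc
  have := exp_ne_zero (f₁ 1 - β (1 / (s : ℂ)))
  field_simp

lemma rob_X {C₁ C r κ N μ s : ℝ} (hC₁ : 100 ≤ C₁) (hN : 0 ≤ N) {f₁ : ℂ → ℂ}
    (h₁ : Flat C r κ N f₁) (hs : 0 < s) (hs1 : C₁ * s ≤ 1 / 10000)
    (hs2 : (4 * N + 2) * (C₁ * s) ≤ 1) (hs3 : 4 * C₁ ^ 2 * (4 * N + 18) * s * (1000 * C₁ ^ 3) ≤ μ)
    {v : ℂ} (hv : 0 < v.re) (hv2 : ‖v‖ ≤ 2 * C₁) :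
    ‖X f₁ ((s : ℂ) * v)‖ ≤ 1 / 1000 ∧
      ‖exp (X f₁ ((s : ℂ) * v)) - (1 - 2 * ((s : ℂ) * v))‖ ≤ μ * s / (1000 * C₁ ^ 3) := by
  have hC0 : 0 < C₁ := by linarith
  have hw := rob_re hs hv
  have hn := rob_norm hs v
  have hwn : ‖(s : ℂ) * v‖ ≤ 2 * (C₁ * s) := by
    rw [hn]
    calc s * ‖v‖ ≤ s * (2 * C₁) := mul_le_mul_of_nonneg_left hv2 hs.le
      _ = 2 * (C₁ * s) := by ring
  have hw0 := norm_nonneg ((s : ℂ) * v)
  have h1' : ∀ z : ℂ, ‖z‖ ≤ 1 → DifferentiableAt ℂ f₁ z ∧ ‖deriv f₁ z‖ ≤ N * ‖1 - z‖ :=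
    fun z hz => ⟨h₁.diff z hz, h₁.flat z hz⟩
  have hq := pert_le hN h1' hw (by linarith)
  have hCs : 0 < C₁ * s := by positivity
  have hE1 : (4 * N + 2) * ‖(s : ℂ) * v‖ ^ 2 ≤ (4 * N + 2) * (2 * (C₁ * s)) ^ 2 := by gcongr
  have hE2 : (4 * N + 2) * (2 * (C₁ * s)) ^ 2 ≤ 4 * (C₁ * s) := by
    calc (4 * N + 2) * (2 * (C₁ * s)) ^ 2 = ((4 * N + 2) * (C₁ * s)) * (4 * (C₁ * s)) := by ring
      _ ≤ 1 * (4 * (C₁ * s)) := mul_le_mul_of_nonneg_right hs2 (by positivity)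
      _ = 4 * (C₁ * s) := one_mul _
  have hq' : ‖X f₁ ((s : ℂ) * v) + 2 * ((s : ℂ) * v)‖ ≤ (4 * N + 2) * (2 * (C₁ * s)) ^ 2 :=
    hq.trans hE1
  constructor
  · have := norm_near hq' hE2 (by linarith)
    linarith
  · have h3 := exp_near hq' hE2 (by linarith) (by linarith)
    refine h3.trans ?_
    rw [le_div_iff₀ (by positivity)]
    calc (4 * (4 * (C₁ * s)) ^ 2 + (4 * N + 2) * (2 * (C₁ * s)) ^ 2) * (1000 * C₁ ^ 3)
        = (4 * C₁ ^ 2 * (4 * N + 18) * s * (1000 * C₁ ^ 3)) * s := by ring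
      _ ≤ μ * s := mul_le_mul_of_nonneg_right hs3 hs.le

/-- (Q1) -/
lemma rob_Q1 {C₁ C r κ N μ s η : ℝ} (hC₁ : 100 ≤ C₁) (hN : 0 ≤ N) (hμ : 0 < μ) {f₁ : ℂ → ℂ}
    (h₁ : Flat C r κ N f₁) (hs : 0 < s) (hs1 : C₁ * s ≤ 1 / 10000)
    (hs2 : (4 * N + 2) * (C₁ * s) ≤ 1) (hs3 : 4 * C₁ ^ 2 * (4 * N + 18) * s * (1000 * C₁ ^ 3) ≤ μ)
    {β φ g : ℂ → ℂ} {ζ : ℂ} (F : Fold C₁ η (μ * s) s β φ g ζ) {G : ℂ → ℂ}
    (hG : Prim (ins f₁ β s) G) :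
    ‖(cc f₁ β s)⁻¹ * G (U ((s : ℂ) * ζ)) - (cc f₁ β s)⁻¹ * G 1‖ ≤
      μ * s / (1000 * C₁ ^ 3) * C₁ := by
  have ha : 0 < μ * s := by positivity
  have hC0 : 0 < C₁ := by linarith
  set H : ℂ → ℂ := fun v => (cc f₁ β s)⁻¹ * G (U ((s : ℂ) * v)) with hH
  have key : ∀ p : ℝ, 0 < p → p ≤ (μ * s) ^ 3 →
      ‖(H ζ - g ζ) - (H (p : ℂ) - g (p : ℂ))‖ ≤ μ * s / (1000 * C₁ ^ 3) * C₁ := by
    intro p hp hpa
    obtain ⟨γ, γ', hγ0, hγ1, hγ⟩ := F.path p hp hpa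
    have h1 := (convex_Icc (0 : ℝ) 1).norm_image_sub_le_of_norm_hasDerivWithin_le
      (f := fun t => H (γ t) - g (γ t))
      (f' := fun t => (exp (β (γ t)) * exp (X f₁ ((s : ℂ) * γ t)) -
        exp (β (γ t)) * (1 - 2 * (s : ℂ) * γ t)) * γ' t)
      (C := μ * s / (1000 * C₁ ^ 3) * C₁)
      (fun t ht => by
        obtain ⟨d1, d2, _, _⟩ := hγ t ht
        have e1 : 0 < (γ t).re := by linarith
        have e5 := (rob_deriv hs hG e1).sub (F.dg (γ t) e1.le)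
        exact (HasDerivAt.comp t e5 d1).hasDerivWithinAt)
      (fun t ht => by
        obtain ⟨_, d2, d3, d4⟩ := hγ t ht
        have e1 : 0 < (γ t).re := by linarith
        have e5 := (rob_X hC₁ hN h₁ hs hs1 hs2 hs3 e1 (by linarith : ‖γ t‖ ≤ 2 * C₁)).2
        have e6 : exp (β (γ t)) * exp (X f₁ ((s : ℂ) * γ t)) -
            exp (β (γ t)) * (1 - 2 * (s : ℂ) * γ t) =
            exp (β (γ t)) * (exp (X f₁ ((s : ℂ) * γ t)) - (1 - 2 * ((s : ℂ) * γ t))) := by ring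
        rw [e6, norm_mul, norm_mul]
        calc ‖exp (β (γ t))‖ * ‖exp (X f₁ ((s : ℂ) * γ t)) - (1 - 2 * ((s : ℂ) * γ t))‖ * ‖γ' t‖
            ≤ ‖exp (β (γ t))‖ * (μ * s / (1000 * C₁ ^ 3)) * ‖γ' t‖ := by gcongr
          _ = μ * s / (1000 * C₁ ^ 3) * (‖exp (β (γ t))‖ * ‖γ' t‖) := by ring
          _ ≤ μ * s / (1000 * C₁ ^ 3) * C₁ := mul_le_mul_of_nonneg_left d4 (by positivity))
      (left_mem_Icc.2 zero_le_one) (right_mem_Icc.2 zero_le_one)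
    simpa only [hγ0, hγ1, sub_zero, norm_one, mul_one] using h1
  -- the limit `p → 0`
  have hU0 : U 0 = 1 := by simp [U]
  have hlimU : Tendsto (fun p : ℝ => U ((s : ℂ) * (p : ℂ))) (𝓝[>] 0)
      (𝓝[Metric.closedBall (0 : ℂ) 1] 1) := by
    refine tendsto_nhdsWithin_iff.2 ⟨?_, ?_⟩
    · have h1 : ContinuousAt (fun p : ℝ => U ((s : ℂ) * (p : ℂ))) 0 := by
        have h2 : ContinuousAt U ((s : ℂ) * ((0 : ℝ) : ℂ)) := by
          rw [ofReal_zero, mul_zero]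
          exact (hasDerivAt_U (by simp)).continuousAt
        exact ContinuousAt.comp (g := U) (f := fun p : ℝ => (s : ℂ) * (p : ℂ)) h2
          (by fun_prop)
      have h3 := h1.tendsto.mono_left (nhdsWithin_le_nhds (s := Ioi (0 : ℝ)))
      simpa [hU0] using h3
    · filter_upwards [self_mem_nhdsWithin] with p hp
      rw [mem_closedBall_zero_iff]
      exact (norm_U_lt (rob_re hs (by simpa using hp))).le
  have hlimG : Tendsto (fun p : ℝ => G (U ((s : ℂ) * (p : ℂ)))) (𝓝[>] 0) (𝓝 (G 1)) := by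
    have h1 : ContinuousWithinAt G (Metric.closedBall (0 : ℂ) 1) 1 := hG.cont 1 (by simp)
    exact h1.tendsto.comp hlimU
  have hlimg : Tendsto (fun p : ℝ => g (p : ℂ)) (𝓝[>] 0) (𝓝 (g 0)) := by
    have h1 : ContinuousAt g ((0 : ℝ) : ℂ) := by
      rw [ofReal_zero]
      exact (F.dg 0 (by simp)).continuousAt
    have h2 : ContinuousAt (fun p : ℝ => g (p : ℂ)) 0 :=
      ContinuousAt.comp (g := g) (f := fun p : ℝ => (p : ℂ)) h1 (by fun_prop)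
    have h3 := h2.tendsto.mono_left (nhdsWithin_le_nhds (s := Ioi (0 : ℝ)))
    simpa using h3
  have hlim : Tendsto (fun p : ℝ => ‖(H ζ - g ζ) - (H (p : ℂ) - g (p : ℂ))‖) (𝓝[>] 0)
      (𝓝 ‖(H ζ - g ζ) - ((cc f₁ β s)⁻¹ * G 1 - g 0)‖) :=
    (tendsto_const_nhds.sub ((hlimG.const_mul _).sub hlimg)).norm
  have hev : ∀ᶠ p : ℝ in 𝓝[>] 0, ‖(H ζ - g ζ) - (H (p : ℂ) - g (p : ℂ))‖ ≤
      μ * s / (1000 * C₁ ^ 3) * C₁ := by
    have h3 : 0 < (μ * s) ^ 3 := by positivity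
    filter_upwards [Ioc_mem_nhdsGT h3] with p hp
    exact key p hp.1 hp.2
  have h4 := le_of_tendsto hlim hev
  rw [F.hg] at h4
  have e : (H ζ - g 0) - ((cc f₁ β s)⁻¹ * G 1 - g 0) = H ζ - (cc f₁ β s)⁻¹ * G 1 := by ring
  rwa [e] at h4

/-- robust covering for fixed `s` -/
lemma rob_core {C₁ C r κ N μ s η δ : ℝ} (hC₁ : 100 ≤ C₁) (hN : 0 ≤ N) (hμ : 0 < μ)
    (hμ1 : μ ≤ 1) (hη : η ≤ 1) {f₁ : ℂ → ℂ}
    (h₁ : Flat C r κ N f₁) (hs : 0 < s) (hs4 : C₁ ^ 4 * s ≤ 1 / 10000)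
    (hs2 : (4 * N + 2) * (C₁ * s) ≤ 1) (hs3 : 4 * C₁ ^ 2 * (4 * N + 18) * s * (1000 * C₁ ^ 3) ≤ μ)
    (hsδ : 4 * (C₁ * s) < δ)
    {β φ g : ℂ → ℂ} {ζ : ℂ} (F : Fold C₁ η (μ * s) s β φ g ζ) {G : ℂ → ℂ}
    (hG : Prim (ins f₁ β s) G) : ∃ η' > 0, Rob G 1 δ η' := by
  have hC0 : 0 < C₁ := by linarith
  have hp4 : C₁ ≤ C₁ ^ 4 := by
    calc C₁ = C₁ ^ 1 := (pow_one _).symm
      _ ≤ C₁ ^ 4 := pow_le_pow_right₀ (by linarith) (by norm_num)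
  have hp24 : C₁ ^ 2 ≤ C₁ ^ 4 := pow_le_pow_right₀ (by linarith) (by norm_num)
  have hs1 : C₁ * s ≤ 1 / 10000 := (mul_le_mul_of_nonneg_right hp4 hs.le).trans hs4
  obtain ⟨a, haeq⟩ : ∃ a : ℝ, a = μ * s := ⟨_, rfl⟩
  have ha : 0 < a := by rw [haeq]; positivity
  have has : a ≤ s := by rw [haeq]; exact mul_le_of_le_one_left hs.le hμ1
  have hC4a : C₁ ^ 4 * a ≤ 1 / 10000 :=
    (mul_le_mul_of_nonneg_left has (by positivity)).trans hs4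
  have hC2a : C₁ ^ 2 * a ≤ 1 / 10000 := (mul_le_mul_of_nonneg_right hp24 ha.le).trans hC4a
  have hQ1 := rob_Q1 hC₁ hN hμ h₁ hs hs1 hs2 hs3 F hG
  have hXs : ∀ v : ℂ, 0 < v.re → ‖v‖ ≤ 2 * C₁ → ‖X f₁ ((s : ℂ) * v)‖ ≤ 1 / 1000 :=
    fun v hv hv2 => (rob_X hC₁ hN h₁ hs hs1 hs2 hs3 hv hv2).1
  rw [← haeq] at F hQ1
  set H : ℂ → ℂ := fun v => (cc f₁ β s)⁻¹ * G (U ((s : ℂ) * v)) with hH
  have hζr := F.ζ_re
  have hζn := F.ζ_norm
  set ρ : ℝ := ζ.re / 8 with hρ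
  have hζ0 : 0 < ζ.re := lt_of_lt_of_le (by positivity) hζr
  have hρ0 : 0 < ρ := by positivity
  have hζre : ζ.re ≤ C₁ := (re_le_norm _).trans hζn
  -- the points of the disc
  have hdisc : ∀ v ∈ Metric.closedBall ζ ρ, 7 / 8 * ζ.re ≤ v.re ∧ ‖v‖ ≤ 9 / 8 * C₁ := by
    intro v hv
    rw [Metric.mem_closedBall, dist_eq_norm] at hv
    constructor
    · have h1 : (ζ - v).re ≤ ‖ζ - v‖ := re_le_norm _
      rw [sub_re, norm_sub_rev] at h1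
      linarith
    · calc ‖v‖ = ‖(v - ζ) + ζ‖ := by rw [sub_add_cancel]
        _ ≤ ρ + C₁ := (norm_add_le _ _).trans (add_le_add hv hζn)
        _ ≤ 9 / 8 * C₁ := by linarith
  have hdre : ∀ v ∈ Metric.closedBall ζ ρ, 0 < v.re := fun v hv => by
    have := (hdisc v hv).1; linarith
  have hdup : ∀ v ∈ Metric.closedBall ζ ρ, ‖v‖ ≤ 2 * C₁ := fun v hv => by
    have := (hdisc v hv).2; linarith
  have hζm : ζ ∈ Metric.closedBall ζ ρ := Metric.mem_closedBall_self hρ0.le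
  have hconv : Convex ℝ (Metric.closedBall ζ ρ) := convex_closedBall _ _
  have hb : ∀ v ∈ Metric.closedBall ζ ρ, ‖β v - β ζ‖ ≤ 1 / 8 := by
    intro v hv
    have h1 := hconv.norm_image_sub_le_of_norm_hasDerivWithin_le
      (f := β) (f' := φ) (C := 1 / ζ.re)
      (fun v hv => (F.dβ v (hdre v hv).le).hasDerivWithinAt)
      (fun v hv => by
        have e1 := F.norm v (hdre v hv).le
        obtain ⟨e2, e3⟩ := hdisc v hv
        have e4 : v.re ≤ 9 / 8 * C₁ := (re_le_norm v).trans e3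
        have e5 : (2 + η) * s * v.re ≤ 1 / 100 := by
          have q0 : 0 ≤ s * v.re := mul_nonneg hs.le (hdre v hv).le
          calc (2 + η) * s * v.re = (2 + η) * (s * v.re) := by ring
            _ ≤ 3 * (s * v.re) := mul_le_mul_of_nonneg_right (by linarith) q0
            _ ≤ 3 * (s * (9 / 8 * C₁)) :=
                mul_le_mul_of_nonneg_left (mul_le_mul_of_nonneg_left e4 hs.le) (by norm_num)
            _ = 27 / 8 * (C₁ * s) := by ring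
            _ ≤ 1 / 100 := by linarith
        rw [le_div_iff₀ hζ0]
        have e6 : 0 ≤ ‖φ v‖ := norm_nonneg _
        have e7 : 7 / 8 * ζ.re * ‖φ v‖ ≤ v.re * ‖φ v‖ := mul_le_mul_of_nonneg_right e2 e6
        linarith) hζm hv
    refine h1.trans ?_
    rw [Metric.mem_closedBall, dist_eq_norm] at hv
    calc 1 / ζ.re * ‖v - ζ‖ ≤ 1 / ζ.re * ρ := mul_le_mul_of_nonneg_left hv (by positivity)
      _ = 1 / 8 := by rw [hρ]; field_simp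
  -- lower bound on the circle
  set d : ℂ := exp (β ζ) * exp (X f₁ ((s : ℂ) * ζ)) with hd
  have hdn : 1 / (C₁ * a) * (1 / 2) ≤ ‖d‖ := by
    rw [hd, norm_mul]
    refine mul_le_mul F.exp_ζ ?_ (by norm_num) (norm_nonneg _)
    rw [norm_exp]
    have h2 := hXs ζ hζ0 (hdup _ hζm)
    have h4 := (abs_le.1 ((abs_re_le_norm _).trans h2)).1
    have h5 := Real.add_one_le_exp (X f₁ ((s : ℂ) * ζ)).re
    linarith
  have hdpos : 0 < ‖d‖ := lt_of_lt_of_le (by positivity) hdn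
  have hlow0 : ∀ v ∈ Metric.sphere ζ ρ, ‖d‖ * ρ / 2 ≤ ‖H v - H ζ‖ := by
    intro v hv
    have hv' := Metric.sphere_subset_closedBall hv
    have h1 := hconv.norm_image_sub_le_of_norm_hasDerivWithin_le
      (f := fun v => H v - d * v)
      (f' := fun v => exp (β v) * exp (X f₁ ((s : ℂ) * v)) - d) (C := ‖d‖ / 2)
      (fun v hv => by
        have e1 : HasDerivAt (fun v : ℂ => d * v) d v := by
          simpa using (hasDerivAt_id v).const_mul d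
        exact ((rob_deriv hs hG (hdre v hv)).sub e1).hasDerivWithinAt)
      (fun v hv => by
        have e1 : exp (β v) * exp (X f₁ ((s : ℂ) * v)) - d =
            d * (exp ((β v - β ζ) + (X f₁ ((s : ℂ) * v) - X f₁ ((s : ℂ) * ζ))) - 1) := by
          rw [hd, mul_sub, ← exp_add, ← exp_add, ← exp_add, mul_one]
          congr 2
          ring
        rw [e1, norm_mul, div_eq_mul_inv]
        refine mul_le_mul_of_nonneg_left ?_ (norm_nonneg _)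
        have e2 : ‖(β v - β ζ) + (X f₁ ((s : ℂ) * v) - X f₁ ((s : ℂ) * ζ))‖ ≤ 1 / 4 := by
          have q1 := hb v hv
          have q2 := hXs v (hdre v hv) (hdup v hv)
          have q3 := hXs ζ hζ0 (hdup _ hζm)
          have q4 := norm_sub_le (X f₁ ((s : ℂ) * v)) (X f₁ ((s : ℂ) * ζ))
          have q5 := norm_add_le (β v - β ζ) (X f₁ ((s : ℂ) * v) - X f₁ ((s : ℂ) * ζ))
          linarith
        have e3 := norm_exp_sub_one_le (e2.trans (by norm_num : (1 : ℝ) / 4 ≤ 1))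
        norm_num
        linarith) hζm hv'
    rw [mem_sphere_iff_norm] at hv
    rw [hv] at h1
    have h2 : d * (v - ζ) = (H v - H ζ) - ((H v - d * v) - (H ζ - d * ζ)) := by ring
    have h3 := norm_sub_le (H v - H ζ) ((H v - d * v) - (H ζ - d * ζ))
    rw [← h2, norm_mul, hv] at h3
    linarith
  have hρa : a ^ 2 / C₁ / 8 ≤ ρ := by rw [hρ]; linarith
  have hdρ : a / (16 * C₁ ^ 2) ≤ ‖d‖ * ρ := by
    have h2 := mul_le_mul hdn hρa (by positivity) (norm_nonneg d)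
    have h3 : 1 / (C₁ * a) * (1 / 2) * (a ^ 2 / C₁ / 8) = a / (16 * C₁ ^ 2) := by
      field_simp
      norm_num
    linarith
  have hdρ0 : 0 < ‖d‖ * ρ := by positivity
  have hQ2 : a / (1000 * C₁ ^ 3) * C₁ ≤ ‖d‖ * ρ / 50 := by
    have h3 : a / (1000 * C₁ ^ 3) * C₁ = a / (16 * C₁ ^ 2) * (16 / 1000) := by
      field_simp
    rw [h3]
    linarith
  have hcn : 0 < ‖cc f₁ β s‖ := norm_pos_iff.2 (cc_ne f₁ β hs)
  refine ⟨‖cc f₁ β s‖ * (‖d‖ * ρ / 64), by positivity, ?_⟩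
  intro h hhc hhd hhG
  set Hh : ℂ → ℂ := fun v => (cc f₁ β s)⁻¹ * h (U ((s : ℂ) * v)) with hHh
  have hUmem : ∀ v ∈ Metric.closedBall ζ ρ, U ((s : ℂ) * v) ∈ Metric.ball (0 : ℂ) 1 := by
    intro v hv
    rw [mem_ball_zero_iff]
    exact norm_U_lt (rob_re hs (hdre v hv))
  have hclose : ∀ z ∈ Metric.closedBall (0 : ℂ) 1,
      ‖(cc f₁ β s)⁻¹ * h z - (cc f₁ β s)⁻¹ * G z‖ ≤ ‖d‖ * ρ / 64 := by
    intro z hz
    rw [← mul_sub, norm_mul, norm_inv]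
    calc ‖cc f₁ β s‖⁻¹ * ‖h z - G z‖ ≤ ‖cc f₁ β s‖⁻¹ * (‖cc f₁ β s‖ * (‖d‖ * ρ / 64)) :=
          mul_le_mul_of_nonneg_left (hhG z hz) (by positivity)
      _ = ‖d‖ * ρ / 64 := by field_simp
  have hcl : ∀ v ∈ Metric.closedBall ζ ρ, ‖Hh v - H v‖ ≤ ‖d‖ * ρ / 64 := fun v hv =>
    hclose _ (Metric.ball_subset_closedBall (hUmem v hv))
  have hlow : ∀ v ∈ Metric.sphere ζ ρ, ‖d‖ * ρ * (7 / 16) ≤ ‖Hh v - Hh ζ‖ := by
    intro v hv
    have h1 := hlow0 v hv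
    have h2 := hcl v (Metric.sphere_subset_closedBall hv)
    have h3 := hcl ζ hζm
    have h4 : H v - H ζ = (Hh v - Hh ζ) - ((Hh v - H v) - (Hh ζ - H ζ)) := by ring
    have h5 := norm_sub_le (Hh v - Hh ζ) ((Hh v - H v) - (Hh ζ - H ζ))
    have h6 := norm_sub_le (Hh v - H v) (Hh ζ - H ζ)
    rw [← h4] at h5
    linarith
  have hder : ∀ v ∈ Metric.closedBall ζ ρ, ∃ e, e ≠ 0 ∧ HasDerivAt Hh e v := by
    intro v hv
    obtain ⟨e, he, hed⟩ := hhd _ (hUmem v hv)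
    have h1 := (rob_comp hs (hdre v hv) hed).const_mul (cc f₁ β s)⁻¹
    refine ⟨_, ?_, h1⟩
    have hne : 1 + (s : ℂ) * v ≠ 0 := add_ne (rob_re hs (hdre v hv))
    have hsne : (s : ℂ) ≠ 0 := ofReal_ne_zero.2 hs.ne'
    refine mul_ne_zero (inv_ne_zero (cc_ne f₁ β hs)) (mul_ne_zero he (mul_ne_zero ?_ hsne))
    exact div_ne_zero (by norm_num) (pow_ne_zero 2 hne)
  have hDC : DiffContOnCl ℂ Hh (Metric.ball ζ ρ) := by
    refine DifferentiableOn.diffContOnCl_ball (U := Metric.closedBall ζ ρ) ?_ Subset.rfl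
    intro v hv
    obtain ⟨e, -, hed⟩ := hder v hv
    exact hed.differentiableAt.differentiableWithinAt
  have hfr : ∃ᶠ v in 𝓝 ζ, Hh v ≠ Hh ζ := by
    obtain ⟨e, he, hed⟩ := hder ζ hζm
    have h3 : ∀ᶠ v in 𝓝[≠] ζ, Hh v ≠ Hh ζ := hed.eventually_ne he
    exact h3.frequently.filter_mono nhdsWithin_le_nhds
  have himg := hDC.ball_subset_image_closedBall hρ0 hlow hfr
  have hmem : (cc f₁ β s)⁻¹ * h 1 ∈ Metric.ball (Hh ζ) (‖d‖ * ρ * (7 / 16) / 2) := by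
    rw [Metric.mem_ball, dist_eq_norm]
    have h1 := hclose 1 (by simp)
    have h2 := hcl ζ hζm
    have h3 : (cc f₁ β s)⁻¹ * h 1 - Hh ζ =
        ((cc f₁ β s)⁻¹ * h 1 - (cc f₁ β s)⁻¹ * G 1) - (H ζ - (cc f₁ β s)⁻¹ * G 1) -
          (Hh ζ - H ζ) := by ring
    rw [h3]
    have h4 := norm_sub_le (((cc f₁ β s)⁻¹ * h 1 - (cc f₁ β s)⁻¹ * G 1) -
      (H ζ - (cc f₁ β s)⁻¹ * G 1)) (Hh ζ - H ζ)
    have h5 := norm_sub_le ((cc f₁ β s)⁻¹ * h 1 - (cc f₁ β s)⁻¹ * G 1)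
      (H ζ - (cc f₁ β s)⁻¹ * G 1)
    have h6 : ‖H ζ - (cc f₁ β s)⁻¹ * G 1‖ ≤ ‖d‖ * ρ / 50 := hQ1.trans hQ2
    linarith
  obtain ⟨v, hv, hvw⟩ := himg hmem
  refine ⟨U ((s : ℂ) * v), hUmem v hv, ?_, ?_⟩
  · refine lt_of_le_of_lt ?_ hsδ
    refine (U_sub_one (rob_re hs (hdre v hv))).trans ?_
    rw [rob_norm hs]
    have h1 := mul_le_mul_of_nonneg_left (hdup v hv) hs.le
    linarith
  · exact mul_left_cancel₀ (inv_ne_zero (cc_ne f₁ β hs)) hvw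

/-- R: the value near `1` -/
theorem ins_rob {C₁ C r κ N μ : ℝ} (hC₁ : 100 ≤ C₁) (hN : 0 ≤ N) (hμ : 0 < μ) (hμ1 : μ ≤ 1)
    {f₁ : ℂ → ℂ} (h₁ : Flat C r κ N f₁) {δ : ℝ} (hδ : 0 < δ) :
    ∃ s₀ > 0, ∀ s : ℝ, 0 < s → s ≤ s₀ → ∀ (η : ℝ) (β φ g : ℂ → ℂ) (ζ : ℂ), η ≤ 1 →
      Fold C₁ η (μ * s) s β φ g ζ → ∀ G : ℂ → ℂ, Prim (ins f₁ β s) G →
      ∃ η' > 0, Rob G 1 δ η' := by
  have hC0 : 0 < C₁ := by linarith
  have a1 : 0 < 1 / (10000 * C₁ ^ 4) := by positivity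
  have a2 : 0 < 1 / ((4 * N + 2) * C₁) := by positivity
  have a3 : 0 < μ / (4 * C₁ ^ 2 * (4 * N + 18) * (1000 * C₁ ^ 3)) := by positivity
  have a4 : 0 < δ / (8 * C₁) := by positivity
  refine ⟨min (min (1 / (10000 * C₁ ^ 4)) (1 / ((4 * N + 2) * C₁)))
    (min (μ / (4 * C₁ ^ 2 * (4 * N + 18) * (1000 * C₁ ^ 3))) (δ / (8 * C₁))),
    lt_min (lt_min a1 a2) (lt_min a3 a4), ?_⟩
  intro s hs hs0 η β φ g ζ hη F G hG
  have b1 : s ≤ 1 / (10000 * C₁ ^ 4) := hs0.trans ((min_le_left _ _).trans (min_le_left _ _))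
  have b2 : s ≤ 1 / ((4 * N + 2) * C₁) := hs0.trans ((min_le_left _ _).trans (min_le_right _ _))
  have b3 : s ≤ μ / (4 * C₁ ^ 2 * (4 * N + 18) * (1000 * C₁ ^ 3)) :=
    hs0.trans ((min_le_right _ _).trans (min_le_left _ _))
  have b4 : s ≤ δ / (8 * C₁) := hs0.trans ((min_le_right _ _).trans (min_le_right _ _))
  rw [le_div_iff₀ (by positivity)] at b1 b2 b3 b4
  refine rob_core hC₁ hN hμ hμ1 hη h₁ hs ?_ ?_ ?_ ?_ F hG
  · linarith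
  · linarith
  · linarith
  · linarith

end Pool.Agent.H50.IU
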