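import Pool.Agent.H50.IU.Rot
import Pool.Agent.H50.IU.Ins
import Pool.Agent.H50.IU.Flat
import Pool.Agent.H50.IU.Ext
import Pool.Agent.H50.IU.Near
import Pool.Agent.H50.IU.Rob
import Pool.Agent.H50.IU.Lim
import Pool.Agent.H50.IT.Final

/-! # Infinite valence near every boundary point -/

open Complex Set Filter Topology

namespace Pool.Agent.H50.IU

/-- one step -/
theorem step {C r : ℝ} (hC : 1 < C) (hr : 1 < r) {f g : ℂ → ℂ} (hf : P C r f) (hg : Prim f g)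
    {ξ : ℂ} (hξ : ‖ξ‖ = 1) {δ ε ρ₀ : ℝ} (hδ : 0 < δ) (hε : 0 < ε) (hρ₀ : ρ₀ < 1) :
    ∃ f' g' : ℂ → ℂ, P C r f' ∧ Prim f' g' ∧ (∀ z : ℂ, ‖z‖ ≤ ρ₀ → ‖f' z - f z‖ ≤ ε) ∧
      (∀ z ∈ Metric.closedBall (0 : ℂ) 1, ‖g' z - g z‖ ≤ ε) ∧ ∃ η > 0, Rob g' ξ δ η := by
  have hne : ξ ≠ 0 := by
    intro h0
    rw [h0, norm_zero] at hξ
    exact zero_ne_one hξ
  have hξi : ‖ξ⁻¹‖ = 1 := by rw [norm_inv, hξ, inv_one]
  have hfr := hf.rot hξ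
  have hgr := hg.rot hξ
  obtain ⟨A, hA⟩ := hfr.norm_le
  obtain ⟨ε₁, hε₁, hε₁1, hε₁2, hε₁3⟩ : ∃ ε₁ : ℝ, 0 < ε₁ ∧ ε₁ ≤ 1 ∧ ε₁ ≤ ε / 2 ∧
      2 * Real.exp A * ε₁ ≤ ε / 2 := by
    have hE := Real.exp_pos A
    refine ⟨min (min 1 (ε / 2)) (ε / (4 * Real.exp A)),
      lt_min (lt_min one_pos (by positivity)) (by positivity), ?_, ?_, ?_⟩
    · exact (min_le_left _ _).trans (min_le_left _ _)
    · exact (min_le_left _ _).trans (min_le_right _ _)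
    · have h := min_le_right (min 1 (ε / 2)) (ε / (4 * Real.exp A))
      rw [le_div_iff₀ (by positivity)] at h
      linarith
  obtain ⟨f₁, κ, N, hκ, hN, h₁, hc₁⟩ := exists_flat (by linarith : (0 : ℝ) ≤ C)
    (by linarith : (0 : ℝ) < r) hfr hε₁
  obtain ⟨g₁, hg₁⟩ := exists_prim (h₁.toP hκ hN)
  have hgc := prim_close hgr hg₁ hA hε₁1 hc₁
  obtain ⟨c, hc0, hcC, hcr, hc4⟩ : ∃ c : ℝ, 0 < c ∧ 1 + 4 * c ≤ C ∧ 1 + 4 * c ≤ r ∧ c ≤ 1 / 4 := by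
    refine ⟨min ((C - 1) / 4) (min ((r - 1) / 4) (1 / 4)), ?_, ?_, ?_, ?_⟩
    · exact lt_min (by linarith) (lt_min (by linarith) (by norm_num))
    · have := min_le_left ((C - 1) / 4) (min ((r - 1) / 4) (1 / 4))
      linarith
    · have := (min_le_right ((C - 1) / 4) (min ((r - 1) / 4) (1 / 4))).trans (min_le_left _ _)
      linarith
    · exact (min_le_right ((C - 1) / 4) (min ((r - 1) / 4) (1 / 4))).trans (min_le_right _ _)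
  have h200 : (100 : ℝ) ≤ 200 := by norm_num
  obtain ⟨μ, hμ, hμ1, s₁, hs₁, hF⟩ := Pool.Agent.H50.IT.exists_folds c hc0
  obtain ⟨s₂, hs₂, hP⟩ := ins_P h200 hκ hN hc0 hc4 hcC hcr h₁ hρ₀ (half_pos hε)
  obtain ⟨s₃, hs₃, hnear⟩ := ins_close h200 hN h₁ hg₁ (half_pos hε)
  obtain ⟨s₄, hs₄, hrob⟩ := ins_rob h200 hN hμ hμ1 h₁ hδ
  obtain ⟨s, hs, k1, k2, k3, k4⟩ : ∃ s : ℝ, 0 < s ∧ s ≤ s₁ ∧ s ≤ s₂ ∧ s ≤ s₃ ∧ s ≤ s₄ :=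
    ⟨min (min s₁ s₂) (min s₃ s₄), lt_min (lt_min hs₁ hs₂) (lt_min hs₃ hs₄),
      (min_le_left _ _).trans (min_le_left _ _), (min_le_left _ _).trans (min_le_right _ _),
      (min_le_right _ _).trans (min_le_left _ _), (min_le_right _ _).trans (min_le_right _ _)⟩
  obtain ⟨β, φ, gf, ζ, F⟩ := hF s hs k1
  have ha : 0 < μ * s := by positivity
  obtain ⟨hP2, hc2⟩ := hP s hs k2 (μ * s) β φ gf ζ ha F
  obtain ⟨G, hG⟩ := exists_prim hP2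
  have hGc := hnear s hs k3 c (μ * s) β φ gf ζ ha F G hG
  obtain ⟨η', hη', hR⟩ := hrob s hs k4 c β φ gf ζ (by linarith) F G hG
  have hPr := hP2.rot hξi
  have hGr := hG.rot hξi
  have hRr := hR.rot hξ
  refine ⟨_, _, hPr, hGr, ?_, ?_, η', hη', ?_⟩
  · intro z hz
    have hz1 : ‖ξ⁻¹ * z‖ = ‖z‖ := by rw [norm_mul, hξi, one_mul]
    have e1 := hc2 (ξ⁻¹ * z) (by rw [hz1]; exact hz)
    have e2 := hc₁ (ξ⁻¹ * z) (by rw [mem_ball_zero_iff, hz1]; linarith)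
    have e3 : ξ * (ξ⁻¹ * z) = z := by field_simp
    simp only [e3] at e2
    have e4 : ins f₁ β s (ξ⁻¹ * z) - f z = (ins f₁ β s (ξ⁻¹ * z) - f₁ (ξ⁻¹ * z)) +
        (f₁ (ξ⁻¹ * z) - f z) := by ring
    show ‖ins f₁ β s (ξ⁻¹ * z) - f z‖ ≤ ε
    rw [e4]
    have := norm_add_le (ins f₁ β s (ξ⁻¹ * z) - f₁ (ξ⁻¹ * z)) (f₁ (ξ⁻¹ * z) - f z)
    linarith
  · intro z hz
    have hz1 := mem_closedBall_mul hξi hz
    have e1 := hGc _ hz1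
    have e2 := hgc _ hz1
    have e3 : ξ * (ξ⁻¹ * z) = z := by field_simp
    simp only [e3] at e2
    have e4 : ξ⁻¹⁻¹ * G (ξ⁻¹ * z) - g z = ξ * ((G (ξ⁻¹ * z) - g₁ (ξ⁻¹ * z)) +
        (g₁ (ξ⁻¹ * z) - ξ⁻¹ * g z)) := by
      rw [inv_inv]
      field_simp
      ring
    show ‖ξ⁻¹⁻¹ * G (ξ⁻¹ * z) - g z‖ ≤ ε
    rw [e4, norm_mul, hξ, one_mul]
    have := norm_add_le (G (ξ⁻¹ * z) - g₁ (ξ⁻¹ * z)) (g₁ (ξ⁻¹ * z) - ξ⁻¹ * g z)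
    linarith
  · rw [inv_inv]
    exact hRr

/-- For every `C > 1` and `r > 1`: near every `f₀` of the class
`(1 - |z|²) |f'| ≤ min (r, 1 + C (1 - |z|))` there is `f` in the class for which `g` is continuous
on the closed disc and takes the boundary value `g ξ` infinitely often in every neighbourhood of
`ξ`, for a dense set of points `ξ` of the circle. -/
theorem dense_everywhere : ∀ C : ℝ, 1 < C → ∀ r : ℝ, 1 < r → ∀ f₀ : ℂ → ℂ,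
    DifferentiableOn ℂ f₀ (Metric.ball 0 1) → f₀ 0 = 0 →
    (∀ z ∈ Metric.ball (0 : ℂ) 1, (1 - ‖z‖ ^ 2) * ‖deriv f₀ z‖ ≤ r) →
    (∀ z ∈ Metric.ball (0 : ℂ) 1, (1 - ‖z‖ ^ 2) * ‖deriv f₀ z‖ ≤ 1 + C * (1 - ‖z‖)) →
    ∀ ρ₀ : ℝ, ρ₀ < 1 → ∀ e : ℝ, 0 < e →
    ∃ f g : ℂ → ℂ, DifferentiableOn ℂ f (Metric.ball 0 1) ∧ f 0 = 0 ∧ g 0 = 0 ∧
    ContinuousOn g (Metric.closedBall 0 1) ∧
    (∀ z ∈ Metric.ball (0 : ℂ) 1, HasDerivAt g (exp (f z)) z) ∧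
    (∃ r' < r, ∀ z ∈ Metric.ball (0 : ℂ) 1, (1 - ‖z‖ ^ 2) * ‖deriv f z‖ ≤ r') ∧
    (∀ z ∈ Metric.ball (0 : ℂ) 1, (1 - ‖z‖ ^ 2) * ‖deriv f z‖ ≤ 1 + C * (1 - ‖z‖)) ∧
    (∀ z : ℂ, ‖z‖ ≤ ρ₀ → ‖f z - f₀ z‖ < e) ∧
    ∀ ξ₀ : ℂ, ‖ξ₀‖ = 1 → ∀ δ : ℝ, 0 < δ → ∃ ξ : ℂ, ‖ξ‖ = 1 ∧ ‖ξ - ξ₀‖ < δ ∧
      ∀ δ' : ℝ, 0 < δ' → {z ∈ Metric.ball (0 : ℂ) 1 | ‖z - ξ‖ < δ' ∧ g z = g ξ}.Infinite := by
  intro C hC r hr f₀ hf₀ h00 hn hX ρ₀ hρ₀ e he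
  obtain ⟨f₁, κ, N, hκ, hN, h10, h1, hclose⟩ := Pool.Agent.H50.IT.approx_T
    (by linarith : (0 : ℝ) ≤ C) (by linarith : (0 : ℝ) < r) hf₀ h00 hn hX hρ₀ (half_pos he)
  set r' : ℝ := max (r - κ) ((1 + r) / 2) with hr'
  have hr'1 : 1 < r' := lt_of_lt_of_le (by linarith) (le_max_right _ _)
  have hr'2 : r' < r := max_lt (by linarith) (by linarith)
  have hP : P C r' f₁ := by
    refine ⟨fun z hz => ?_, h10, ⟨N * 2, fun z hz => ?_⟩, fun z hz => ?_, fun z hz => ?_⟩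
    all_goals rw [mem_ball_zero_iff] at hz
    · exact (h1 z hz.le).1.differentiableWithinAt
    · refine (h1 z hz.le).2.1.trans ?_
      have g2 : ‖1 - z‖ ≤ 2 := by
        have := norm_sub_le (1 : ℂ) z
        rw [norm_one] at this
        linarith
      gcongr
    · exact (h1 z hz.le).2.2.1.trans (le_max_left _ _)
    · have := (h1 z hz.le).2.2.2
      linarith
  obtain ⟨g₁, hg₁⟩ := exists_prim hP
  obtain ⟨f, g, a1, a2, a3, a4, a5, a6, a7⟩ := limit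
    (fun f g hf hg ξ hξ δ hδ ε hε ρ₀ hρ₀ => step hC hr'1 hf hg hξ hδ hε hρ₀) hP hg₁ hρ₀
    (show (0 : ℝ) < e / 4 by linarith)
  refine ⟨f, g, a1, a2, a3.zero, a3.cont, a3.deriv, ⟨r', hr'2, a4⟩, a5, fun z hz => ?_, a7⟩
  have e1 := a6 z hz
  have e2 := hclose z hz
  have e3 : f z - f₀ z = (f z - f₁ z) + (f₁ z - f₀ z) := by ring
  rw [e3]
  have := norm_add_le (f z - f₁ z) (f₁ z - f₀ z)
  linarith

end Pool.Agent.H50.IU
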