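import Mathlib
import Pool.Agent.H50.IU.Lim

/-! # The limit of the steps, with a given countable set of boundary points -/

open Complex Set Filter Topology

namespace Pool.Agent.H50.IU

/-- the limit for a given sequence of boundary points -/
theorem limit_seq {C r : ℝ} {u : ℕ → ℂ} (hu1 : ∀ j, ‖u j‖ = 1)
    (hstep : ∀ f g : ℂ → ℂ, P C r f → Prim f g → ∀ ξ : ℂ, ‖ξ‖ = 1 → ∀ δ > 0, ∀ ε > 0,
      ∀ ρ₀ < 1, ∃ f' g' : ℂ → ℂ, P C r f' ∧ Prim f' g' ∧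
        (∀ z : ℂ, ‖z‖ ≤ ρ₀ → ‖f' z - f z‖ ≤ ε) ∧
        (∀ z ∈ Metric.closedBall (0 : ℂ) 1, ‖g' z - g z‖ ≤ ε) ∧ ∃ η > 0, Rob g' ξ δ η)
    {f₀ g₀ : ℂ → ℂ} (hf₀ : P C r f₀) (hg₀ : Prim f₀ g₀) {ρ₀ e : ℝ} (hρ₀ : ρ₀ < 1) (he : 0 < e) :
    ∃ f g : ℂ → ℂ, DifferentiableOn ℂ f (Metric.ball 0 1) ∧ f 0 = 0 ∧ Prim f g ∧
      (∀ z ∈ Metric.ball (0 : ℂ) 1, (1 - ‖z‖ ^ 2) * ‖deriv f z‖ ≤ r) ∧
      (∀ z ∈ Metric.ball (0 : ℂ) 1, (1 - ‖z‖ ^ 2) * ‖deriv f z‖ ≤ 1 + C * (1 - ‖z‖)) ∧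
      (∀ z : ℂ, ‖z‖ ≤ ρ₀ → ‖f z - f₀ z‖ ≤ e) ∧
      ∀ j, ∀ δ' > 0, {z ∈ Metric.ball (0 : ℂ) 1 | ‖z - u j‖ < δ' ∧ g z = g (u j)}.Infinite := by
  classical
  set ρ : ℕ → ℝ := fun k => max ρ₀ (1 - 1 / ((k : ℝ) + 2)) with hρ
  have hρ1 : ∀ k, ρ k < 1 := by
    intro k
    have : (0 : ℝ) < 1 / ((k : ℝ) + 2) := by positivity
    exact max_lt hρ₀ (by linarith)
  have hρm : Monotone ρ := by
    intro j k hjk
    refine max_le_max le_rfl ?_
    have h1 : (j : ℝ) ≤ k := by exact_mod_cast hjk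
    have h0 : (0 : ℝ) ≤ j := Nat.cast_nonneg j
    have h2 : 1 / ((k : ℝ) + 2) ≤ 1 / ((j : ℝ) + 2) :=
      one_div_le_one_div_of_le (by linarith) (by linarith)
    linarith
  have hρ0 : ∀ k, ρ₀ ≤ ρ k := fun k => le_max_left _ _
  have hρlim : ∀ t : ℝ, t < 1 → ∃ k, t ≤ ρ k := by
    intro t ht
    obtain ⟨k, hk⟩ := exists_nat_one_div_lt (sub_pos.2 ht)
    refine ⟨k, le_trans ?_ (le_max_right _ _)⟩
    have h0 : (0 : ℝ) ≤ k := Nat.cast_nonneg k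
    have h2 : 1 / ((k : ℝ) + 2) ≤ 1 / ((k : ℝ) + 1) :=
      one_div_le_one_div_of_le (by linarith) (by linarith)
    linarith
  -- the steps
  have hst : ∀ (k : ℕ) (s : St C r), ∃ s' : St C r,
      (∀ z : ℂ, ‖z‖ ≤ ρ k → ‖s'.f z - s.f z‖ ≤ s.m / 2 / 2 ^ k) ∧
      (∀ z ∈ Metric.closedBall (0 : ℂ) 1, ‖s'.g z - s.g z‖ ≤ s.m / 2 / 2 ^ k) ∧
      s'.m ≤ s.m ∧
      Rob s'.g (u (Nat.unpair k).1) (1 / (((Nat.unpair k).2 : ℝ) + 1)) s'.m := by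
    intro k s
    have hm := s.hm
    obtain ⟨f', g', h1, h2, h3, h4, η, hη, h5⟩ := hstep s.f s.g s.hP s.hg
      (u (Nat.unpair k).1) (hu1 _) (1 / (((Nat.unpair k).2 : ℝ) + 1)) (by positivity)
      (s.m / 2 / 2 ^ k) (by positivity) (ρ k) (hρ1 k)
    refine ⟨⟨f', g', h1, h2, min η s.m, lt_min hη hm⟩, h3, h4, min_le_right _ _, ?_⟩
    intro h hc hd hh
    exact h5 h hc hd fun z hz => (hh z hz).trans (min_le_left _ _)
  choose nxt hn1 hn2 hn3 hn4 using hst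
  set S : ℕ → St C r := fun n => Nat.rec ⟨f₀, g₀, hf₀, hg₀, e, he⟩ (fun k s => nxt k s) n with hS
  have hS0f : (S 0).f = f₀ := rfl
  have hS0m : (S 0).m = e := rfl
  have hSs : ∀ n, S (n + 1) = nxt n (S n) := fun n => rfl
  have hma : Antitone (fun n => (S n).m) := antitone_nat_of_succ_le fun n => by
    show (S (n + 1)).m ≤ (S n).m
    rw [hSs]
    exact hn3 n (S n)
  have hF : ∀ (z : ℂ) (k : ℕ), ‖z‖ ≤ ρ k → ∀ n ≥ k,
      ‖(S (n + 1)).f z - (S n).f z‖ ≤ (S k).m / 2 / 2 ^ n := by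
    intro z k hz n hn
    rw [hSs]
    refine (hn1 n (S n) z (hz.trans (hρm hn))).trans ?_
    have := hma hn
    simp only at this
    gcongr
  have hG : ∀ z ∈ Metric.closedBall (0 : ℂ) 1, ∀ (k : ℕ), ∀ n ≥ k,
      ‖(S (n + 1)).g z - (S n).g z‖ ≤ (S k).m / 2 / 2 ^ n := by
    intro z hz k n hn
    rw [hSs]
    refine (hn2 n (S n) z hz).trans ?_
    have := hma hn
    simp only at this
    gcongr
  have hfex : ∀ z : ℂ, ∃ l : ℂ, ‖z‖ < 1 → Tendsto (fun n => (S n).f z) atTop (𝓝 l) := by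
    intro z
    by_cases hz : ‖z‖ < 1
    · obtain ⟨k, hk⟩ := hρlim _ hz
      obtain ⟨l, hl, -⟩ := seq_lim (a := fun n => (S n).f z) (hF z k hk)
      exact ⟨l, fun _ => hl⟩
    · exact ⟨0, fun h => absurd h hz⟩
  have hgex : ∀ z : ℂ, ∃ l : ℂ, z ∈ Metric.closedBall (0 : ℂ) 1 →
      Tendsto (fun n => (S n).g z) atTop (𝓝 l) := by
    intro z
    by_cases hz : z ∈ Metric.closedBall (0 : ℂ) 1
    · obtain ⟨l, hl, -⟩ := seq_lim (a := fun n => (S n).g z) (hG z hz 0)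
      exact ⟨l, fun _ => hl⟩
    · exact ⟨0, fun h => absurd h hz⟩
  choose f hf using hfex
  choose g hg using hgex
  have hfd : ∀ (z : ℂ) (k : ℕ), ‖z‖ < 1 → ‖z‖ ≤ ρ k → ∀ n ≥ k,
      ‖f z - (S n).f z‖ ≤ (S k).m / 2 ^ n := by
    intro z k hz hk n hn
    obtain ⟨l, hl, hl2⟩ := seq_lim (a := fun n => (S n).f z) (hF z k hk)
    rw [tendsto_nhds_unique (hf z hz) hl]
    exact hl2 n hn
  have hgd : ∀ z ∈ Metric.closedBall (0 : ℂ) 1, ∀ (k : ℕ), ∀ n ≥ k,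
      ‖g z - (S n).g z‖ ≤ (S k).m / 2 ^ n := by
    intro z hz k n hn
    obtain ⟨l, hl, hl2⟩ := seq_lim (a := fun n => (S n).g z) (hG z hz k)
    rw [tendsto_nhds_unique (hg z hz) hl]
    exact hl2 n hn
  have hpow : ∀ c : ℝ, Tendsto (fun n : ℕ => c / 2 ^ n) atTop (𝓝 0) := by
    intro c
    have h1 : Tendsto (fun n : ℕ => c * (1 / 2 : ℝ) ^ n) atTop (𝓝 (c * 0)) :=
      (tendsto_pow_atTop_nhds_zero_of_lt_one (by norm_num) (by norm_num)).const_mul c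
    rw [mul_zero] at h1
    refine h1.congr fun n => ?_
    rw [one_div, inv_pow]
    rfl
  -- locally uniform convergence
  have hfu : TendstoLocallyUniformlyOn (fun n => (S n).f) f atTop (Metric.ball 0 1) := by
    rw [Metric.tendstoLocallyUniformlyOn_iff]
    intro ε hε x hx
    have hx1 : ‖x‖ < 1 := mem_ball_zero_iff.1 hx
    obtain ⟨t, ht1, ht2⟩ := exists_between hx1
    obtain ⟨k, hk⟩ := hρlim t ht2
    refine ⟨Metric.ball 0 t, mem_nhdsWithin_of_mem_nhds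
      (Metric.isOpen_ball.mem_nhds (mem_ball_zero_iff.2 ht1)), ?_⟩
    have h1 := (hpow (S k).m).eventually (gt_mem_nhds hε)
    filter_upwards [h1, eventually_ge_atTop k] with n hn1 hn2 y hy
    have hy1 : ‖y‖ < t := mem_ball_zero_iff.1 hy
    rw [dist_eq_norm]
    exact (hfd y k (hy1.trans ht2) (hy1.le.trans hk) n hn2).trans_lt hn1
  have hgu : TendstoUniformlyOn (fun n => (S n).g) g atTop (Metric.closedBall 0 1) := by
    rw [Metric.tendstoUniformlyOn_iff]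
    intro ε hε
    have h1 := (hpow (S 0).m).eventually (gt_mem_nhds hε)
    filter_upwards [h1] with n hn1 y hy
    rw [dist_eq_norm]
    exact (hgd y hy 0 n (Nat.zero_le n)).trans_lt hn1
  have hbo : IsOpen (Metric.ball (0 : ℂ) 1) := Metric.isOpen_ball
  have hdiff : DifferentiableOn ℂ f (Metric.ball 0 1) :=
    hfu.differentiableOn (Eventually.of_forall fun n => (S n).hP.diff) hbo
  have hder : ∀ z ∈ Metric.ball (0 : ℂ) 1,
      Tendsto (fun n => deriv (S n).f z) atTop (𝓝 (deriv f z)) := fun z hz =>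
    (hfu.deriv (Eventually.of_forall fun n => (S n).hP.diff) hbo).tendsto_at hz
  have hgbu : TendstoLocallyUniformlyOn (fun n => (S n).g) g atTop (Metric.ball 0 1) :=
    (hgu.mono Metric.ball_subset_closedBall).tendstoLocallyUniformlyOn
  have hgdn : ∀ n, DifferentiableOn ℂ (S n).g (Metric.ball 0 1) := fun n z hz =>
    ((S n).hg.deriv z hz).differentiableAt.differentiableWithinAt
  have hgdiff : DifferentiableOn ℂ g (Metric.ball 0 1) :=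
    hgbu.differentiableOn (Eventually.of_forall hgdn) hbo
  have hprim : Prim f g := by
    refine ⟨hgu.continuousOn (Frequently.of_forall fun n => (S n).hg.cont), ?_, ?_⟩
    · have h1 := hg 0 (by simp)
      have h2 : (fun n => (S n).g 0) = fun _ => 0 := funext fun n => (S n).hg.zero
      rw [h2] at h1
      exact tendsto_nhds_unique h1 tendsto_const_nhds
    · intro z hz
      have h1 : Tendsto (fun n => deriv (S n).g z) atTop (𝓝 (deriv g z)) :=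
        (hgbu.deriv (Eventually.of_forall hgdn) hbo).tendsto_at hz
      have h2 : (fun n => deriv (S n).g z) = fun n => exp ((S n).f z) :=
        funext fun n => ((S n).hg.deriv z hz).deriv
      rw [h2] at h1
      have h3 : Tendsto (fun n => exp ((S n).f z)) atTop (𝓝 (exp (f z))) :=
        (Complex.continuous_exp.tendsto _).comp (hf z (mem_ball_zero_iff.1 hz))
      rw [← tendsto_nhds_unique h1 h3]
      exact (hgdiff.differentiableAt (hbo.mem_nhds hz)).hasDerivAt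
  refine ⟨f, g, hdiff, ?_, hprim, ?_, ?_, ?_, ?_⟩
  · have h1 := hf 0 (by simp)
    have h2 : (fun n => (S n).f 0) = fun _ => 0 := funext fun n => (S n).hP.zero
    rw [h2] at h1
    exact tendsto_nhds_unique h1 tendsto_const_nhds
  · intro z hz
    exact le_of_tendsto ((hder z hz).norm.const_mul _)
      (Eventually.of_forall fun n => (S n).hP.le_r z hz)
  · intro z hz
    exact le_of_tendsto ((hder z hz).norm.const_mul _)
      (Eventually.of_forall fun n => (S n).hP.le_C z hz)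
  · intro z hz
    have h1 := hfd z 0 (hz.trans_lt hρ₀) (hz.trans (hρ0 0)) 0 le_rfl
    rw [hS0f, hS0m, pow_zero, div_one] at h1
    exact h1
  · intro j
    · intro δ' hδ' hfin
      have hnot : (u j) ∉ {z ∈ Metric.ball (0 : ℂ) 1 | ‖z - u j‖ < δ' ∧ g z = g (u j)} := by
        rintro ⟨h1, -⟩
        have := mem_ball_zero_iff.1 h1
        rw [hu1 j] at this
        exact lt_irrefl _ this
      obtain ⟨ε, hε, hb⟩ := Metric.mem_nhds_iff.1 (hfin.isClosed.isOpen_compl.mem_nhds hnot)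
      obtain ⟨i, hi⟩ := exists_nat_one_div_lt (lt_min hε hδ')
      have hR := hn4 (Nat.pair j i) (S (Nat.pair j i))
      rw [← hSs, Nat.unpair_pair] at hR
      obtain ⟨z, hz, hz1, hz2⟩ := hR g hprim.cont
        (fun z hz => ⟨exp (f z), exp_ne_zero _, hprim.deriv z hz⟩) (fun z hz => by
          have h1 := hgd z hz (Nat.pair j i + 1) (Nat.pair j i + 1) le_rfl
          refine h1.trans (div_le_self (S (Nat.pair j i + 1)).hm.le ?_)
          exact one_le_pow₀ (by norm_num))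
      have hz3 := hz1.trans hi
      have hzb : z ∈ Metric.ball (u j) ε := by
        rw [Metric.mem_ball, dist_eq_norm]
        exact hz3.trans_le (min_le_left _ _)
      exact hb hzb ⟨hz, hz3.trans_le (min_le_right _ _), hz2⟩

/-- the limit, with a given countable set of boundary points -/
theorem limit' {C r : ℝ} {E : Set ℂ} (hE : E.Countable) (hE1 : ∀ ξ ∈ E, ‖ξ‖ = 1)
    (hstep : ∀ f g : ℂ → ℂ, P C r f → Prim f g → ∀ ξ : ℂ, ‖ξ‖ = 1 → ∀ δ > 0, ∀ ε > 0,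
      ∀ ρ₀ < 1, ∃ f' g' : ℂ → ℂ, P C r f' ∧ Prim f' g' ∧
        (∀ z : ℂ, ‖z‖ ≤ ρ₀ → ‖f' z - f z‖ ≤ ε) ∧
        (∀ z ∈ Metric.closedBall (0 : ℂ) 1, ‖g' z - g z‖ ≤ ε) ∧ ∃ η > 0, Rob g' ξ δ η)
    {f₀ g₀ : ℂ → ℂ} (hf₀ : P C r f₀) (hg₀ : Prim f₀ g₀) {ρ₀ e : ℝ} (hρ₀ : ρ₀ < 1) (he : 0 < e) :
    ∃ f g : ℂ → ℂ, DifferentiableOn ℂ f (Metric.ball 0 1) ∧ f 0 = 0 ∧ Prim f g ∧
      (∀ z ∈ Metric.ball (0 : ℂ) 1, (1 - ‖z‖ ^ 2) * ‖deriv f z‖ ≤ r) ∧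
      (∀ z ∈ Metric.ball (0 : ℂ) 1, (1 - ‖z‖ ^ 2) * ‖deriv f z‖ ≤ 1 + C * (1 - ‖z‖)) ∧
      (∀ z : ℂ, ‖z‖ ≤ ρ₀ → ‖f z - f₀ z‖ ≤ e) ∧
      (∀ ξ₀ : ℂ, ‖ξ₀‖ = 1 → ∀ δ > 0, ∃ ξ : ℂ, ‖ξ‖ = 1 ∧ ‖ξ - ξ₀‖ < δ ∧
        ∀ δ' > 0, {z ∈ Metric.ball (0 : ℂ) 1 | ‖z - ξ‖ < δ' ∧ g z = g ξ}.Infinite) ∧
      ∀ ξ ∈ E, ∀ δ' > 0, {z ∈ Metric.ball (0 : ℂ) 1 | ‖z - ξ‖ < δ' ∧ g z = g ξ}.Infinite := by
  classical
  have hne : Nonempty (Metric.sphere (0 : ℂ) 1) := ⟨⟨1, by simp⟩⟩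
  set w : ℕ → Metric.sphere (0 : ℂ) 1 := TopologicalSpace.denseSeq _ with hw
  have hwd : DenseRange w := TopologicalSpace.denseRange_denseSeq _
  obtain ⟨u, hu⟩ := ((countable_range fun n => (w n : ℂ)).union hE).exists_eq_range
    ⟨(w 0 : ℂ), Or.inl ⟨0, rfl⟩⟩
  have hu1 : ∀ j, ‖u j‖ = 1 := by
    intro j
    have h1 : u j ∈ (range fun n => (w n : ℂ)) ∪ E := hu ▸ mem_range_self j
    rcases h1 with ⟨n, hn⟩ | h1
    · rw [← hn]
      exact mem_sphere_zero_iff_norm.1 (w n).2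
    · exact hE1 _ h1
  obtain ⟨f, g, h1, h2, h3, h4, h5, h6, h7⟩ := limit_seq hu1 hstep hf₀ hg₀ hρ₀ he
  refine ⟨f, g, h1, h2, h3, h4, h5, h6, ?_, ?_⟩
  · intro ξ₀ hξ₀ δ hδ
    obtain ⟨j, hj⟩ := hwd.exists_dist_lt (⟨ξ₀, mem_sphere_zero_iff_norm.2 hξ₀⟩ :
      Metric.sphere (0 : ℂ) 1) hδ
    have hm : (w j : ℂ) ∈ range u := hu ▸ Or.inl ⟨j, rfl⟩
    obtain ⟨i, hi⟩ := hm
    refine ⟨w j, mem_sphere_zero_iff_norm.1 (w j).2, ?_, ?_⟩
    · rw [← dist_eq_norm, dist_comm]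
      exact hj
    · rw [← hi]
      exact h7 i
  · intro ξ hξ
    have hm : ξ ∈ range u := hu ▸ Or.inr hξ
    obtain ⟨i, hi⟩ := hm
    rw [← hi]
    exact h7 i

end Pool.Agent.H50.IU
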