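import Pool.Agent.H50.IU.Defs

/-! # The good boundary points are residual -/

open Complex Set Filter Topology

namespace Pool.Agent.H50.IU

/-- A set which comes arbitrarily close to a point outside it is infinite. -/
lemma infinite_of_near {S : Set ℂ} {ξ : ℂ} (hS : ∀ z ∈ S, z ≠ ξ)
    (h : ∀ e > 0, ∃ z ∈ S, ‖z - ξ‖ < e) : S.Infinite := by
  intro hfin
  obtain ⟨z₁, hz₁, -⟩ := h 1 one_pos
  obtain ⟨z₀, hz₀, hmin⟩ := hfin.exists_minimalFor (fun z => ‖z - ξ‖) S ⟨z₁, hz₁⟩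
  have hpos : 0 < ‖z₀ - ξ‖ := by
    rw [norm_pos_iff]
    intro h0
    exact hS z₀ hz₀ (sub_eq_zero.1 h0)
  obtain ⟨z, hz, hlt⟩ := h _ hpos
  have h4 := hmin hz hlt.le
  simp only at h4
  linarith

/-- the set of the points of the circle whose value is taken at distance less than `r` -/
def Good (g : ℂ → ℂ) (r : ℝ) : Set (Metric.sphere (0 : ℂ) 1) :=
  {ξ | ∃ z ∈ Metric.ball (0 : ℂ) 1, ‖z - (ξ : ℂ)‖ < r ∧ g z = g (ξ : ℂ)}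

lemma isOpen_Good {f g : ℂ → ℂ} (hg : Prim f g) (r : ℝ) : IsOpen (Good g r) := by
  rw [isOpen_iff_mem_nhds]
  rintro ξ ⟨z, hz, hzr, hgz⟩
  have hdg : DifferentiableOn ℂ g (Metric.ball 0 1) := fun w hw =>
    (hg.deriv w hw).differentiableAt.differentiableWithinAt
  have hs : HasStrictDerivAt g (exp (f z)) z := by
    have h1 := (hdg.analyticAt (Metric.isOpen_ball.mem_nhds hz)).hasStrictDerivAt
    rwa [(hg.deriv z hz).deriv] at h1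
  have hmap := hs.map_nhds_eq (Complex.exp_ne_zero _)
  obtain ⟨ρ, hρ1, hρ2⟩ := exists_between hzr
  have hV : {w : ℂ | w ∈ Metric.ball (0 : ℂ) 1 ∧ ‖w - (ξ : ℂ)‖ < ρ} ∈ 𝓝 z := by
    have hopen : IsOpen {w : ℂ | w ∈ Metric.ball (0 : ℂ) 1 ∧ ‖w - (ξ : ℂ)‖ < ρ} :=
      Metric.isOpen_ball.inter
        (isOpen_lt ((continuous_id.sub continuous_const).norm) continuous_const)
    exact hopen.mem_nhds ⟨hz, hρ1⟩
  have himg : g '' {w : ℂ | w ∈ Metric.ball (0 : ℂ) 1 ∧ ‖w - (ξ : ℂ)‖ < ρ} ∈ 𝓝 (g (ξ : ℂ)) := by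
    rw [← hgz, ← hmap]
    exact image_mem_map hV
  have hmem : ∀ ξ' : Metric.sphere (0 : ℂ) 1, (ξ' : ℂ) ∈ Metric.closedBall (0 : ℂ) 1 :=
    fun ξ' => Metric.sphere_subset_closedBall ξ'.2
  have hc : Continuous (fun ξ' : Metric.sphere (0 : ℂ) 1 => g (ξ' : ℂ)) :=
    hg.cont.comp_continuous continuous_subtype_val hmem
  have h1 : ∀ᶠ ξ' in 𝓝 ξ, g ((ξ' : Metric.sphere (0 : ℂ) 1) : ℂ) ∈
      g '' {w : ℂ | w ∈ Metric.ball (0 : ℂ) 1 ∧ ‖w - (ξ : ℂ)‖ < ρ} :=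
    hc.continuousAt.eventually_mem himg
  have h2 : ∀ᶠ ξ' in 𝓝 ξ, ‖(ξ : ℂ) - ((ξ' : Metric.sphere (0 : ℂ) 1) : ℂ)‖ < r - ρ := by
    have hc2 : Continuous (fun ξ' : Metric.sphere (0 : ℂ) 1 => ‖(ξ : ℂ) - (ξ' : ℂ)‖) := by
      fun_prop
    refine hc2.continuousAt.eventually_lt continuousAt_const ?_
    simp only [sub_self, norm_zero]
    linarith
  filter_upwards [h1, h2] with ξ' h1' h2'
  obtain ⟨w, ⟨hw, hw1⟩, hw2⟩ := h1'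
  refine ⟨w, hw, ?_, hw2⟩
  have e : w - (ξ' : ℂ) = (w - (ξ : ℂ)) + ((ξ : ℂ) - (ξ' : ℂ)) := by ring
  rw [e]
  have := norm_add_le (w - (ξ : ℂ)) ((ξ : ℂ) - (ξ' : ℂ))
  linarith

/-- the good points are residual as soon as they are dense -/
theorem residual_good {f g : ℂ → ℂ} (hg : Prim f g)
    (hd : ∀ ξ₀ : ℂ, ‖ξ₀‖ = 1 → ∀ δ > 0, ∃ ξ : ℂ, ‖ξ‖ = 1 ∧ ‖ξ - ξ₀‖ < δ ∧
        ∀ δ' > 0, {z ∈ Metric.ball (0 : ℂ) 1 | ‖z - ξ‖ < δ' ∧ g z = g ξ}.Infinite) :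
    {ξ : Metric.sphere (0 : ℂ) 1 | ∀ δ' : ℝ, 0 < δ' →
      {z ∈ Metric.ball (0 : ℂ) 1 | ‖z - (ξ : ℂ)‖ < δ' ∧ g z = g (ξ : ℂ)}.Infinite} ∈
      residual (Metric.sphere (0 : ℂ) 1) := by
  have hA : ∀ n : ℕ, Good g (1 / ((n : ℝ) + 1)) ∈ residual (Metric.sphere (0 : ℂ) 1) := by
    intro n
    refine residual_of_dense_open (isOpen_Good hg _) ?_
    rw [Metric.dense_iff]
    intro ξ₀ r hr
    have hn0 : ‖(ξ₀ : ℂ)‖ = 1 := by simp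
    obtain ⟨ξ, hξ, hξr, hinf⟩ := hd ξ₀ hn0 r hr
    obtain ⟨z, hz, hz1, hz2⟩ := (hinf (1 / ((n : ℝ) + 1)) (by positivity)).nonempty
    refine ⟨⟨ξ, by simpa using hξ⟩, ?_, z, hz, hz1, hz2⟩
    rw [Metric.mem_ball, Subtype.dist_eq, dist_eq_norm]
    exact hξr
  refine mem_of_superset (countable_iInter_mem.2 hA) ?_
  intro ξ hξ δ' hδ'
  have hξ1 : ‖(ξ : ℂ)‖ = 1 := by simp
  refine infinite_of_near (ξ := (ξ : ℂ)) ?_ ?_
  · rintro z ⟨hz, -, -⟩ rfl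
    rw [mem_ball_zero_iff, hξ1] at hz
    exact lt_irrefl _ hz
  · intro e he
    obtain ⟨n, hn⟩ := exists_nat_one_div_lt (lt_min hδ' he)
    obtain ⟨z, hz, hz1, hz2⟩ := mem_iInter.1 hξ n
    have h3 := hz1.trans hn
    exact ⟨z, ⟨hz, h3.trans_le (min_le_left _ _), hz2⟩, h3.trans_le (min_le_right _ _)⟩

end Pool.Agent.H50.IU
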