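import Pool.Agent.H50.IU.Final
import Pool.Agent.H50.IU.Lim2
import Pool.Agent.H50.IU.Res

/-! # Infinite valence near every boundary point: final form -/

open Complex Set Filter Topology

namespace Pool.Agent.H50.IU

/-- For every `C > 1` and `r > 1`: near every `f₀` of the class
`(1 - |z|²) |f'| ≤ min (r, 1 + C (1 - |z|))` there is `f` in the class for which `g` is continuous
on the closed disc and takes the boundary value `g ξ` infinitely often in every neighbourhood of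
`ξ`, for all `ξ` of a given countable set `E` and for all `ξ` of a residual set. -/
theorem dense_residual : ∀ C : ℝ, 1 < C → ∀ r : ℝ, 1 < r → ∀ f₀ : ℂ → ℂ,
    DifferentiableOn ℂ f₀ (Metric.ball 0 1) → f₀ 0 = 0 →
    (∀ z ∈ Metric.ball (0 : ℂ) 1, (1 - ‖z‖ ^ 2) * ‖deriv f₀ z‖ ≤ r) →
    (∀ z ∈ Metric.ball (0 : ℂ) 1, (1 - ‖z‖ ^ 2) * ‖deriv f₀ z‖ ≤ 1 + C * (1 - ‖z‖)) →
    ∀ ρ₀ : ℝ, ρ₀ < 1 → ∀ e : ℝ, 0 < e →
    ∀ E : Set ℂ, E.Countable → (∀ ξ ∈ E, ‖ξ‖ = 1) →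
    ∃ f g : ℂ → ℂ, DifferentiableOn ℂ f (Metric.ball 0 1) ∧ f 0 = 0 ∧ g 0 = 0 ∧
    ContinuousOn g (Metric.closedBall 0 1) ∧
    (∀ z ∈ Metric.ball (0 : ℂ) 1, HasDerivAt g (exp (f z)) z) ∧
    (∃ r' < r, ∀ z ∈ Metric.ball (0 : ℂ) 1, (1 - ‖z‖ ^ 2) * ‖deriv f z‖ ≤ r') ∧
    (∀ z ∈ Metric.ball (0 : ℂ) 1, (1 - ‖z‖ ^ 2) * ‖deriv f z‖ ≤ 1 + C * (1 - ‖z‖)) ∧
    (∀ z : ℂ, ‖z‖ ≤ ρ₀ → ‖f z - f₀ z‖ < e) ∧
    (∀ ξ ∈ E, ∀ δ : ℝ, 0 < δ →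
      {z ∈ Metric.ball (0 : ℂ) 1 | ‖z - ξ‖ < δ ∧ g z = g ξ}.Infinite) ∧
    {ξ : Metric.sphere (0 : ℂ) 1 | ∀ δ : ℝ, 0 < δ →
      {z ∈ Metric.ball (0 : ℂ) 1 | ‖z - (ξ : ℂ)‖ < δ ∧ g z = g (ξ : ℂ)}.Infinite} ∈
        residual (Metric.sphere (0 : ℂ) 1) := by
  intro C hC r hr f₀ hf₀ h00 hn hX ρ₀ hρ₀ e he E hE hE1
  obtain ⟨f₁, κ, N, hκ, hN, h10, h1, hclose⟩ := Pool.Agent.H50.IT.approx_T
    (by linarith : (0 : ℝ) ≤ C) (by linarith : (0 : ℝ) < r) hf₀ h00 hn hX hρ₀ (half_pos he)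
  set r' : ℝ := max (r - κ) ((1 + r) / 2) with hr'
  have hr'1 : 1 < r' := lt_of_lt_of_le (by linarith) (le_max_right _ _)
  have hr'2 : r' < r := max_lt (by linarith) (by linarith)
  have hP : P C r' f₁ := by
    refine ⟨fun z hz => ?_, h10, ⟨N * 2, fun z hz => ?_⟩, fun z hz => ?_, fun z hz => ?_⟩
    all_goals rw [mem_ball_zero_iff] at hz
    · exact (h1 z hz.le).1.differentiableWithinAt
    · refine (h1 z hz.le).2.1.trans ?_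
      have g2 : ‖1 - z‖ ≤ 2 := by
        have := norm_sub_le (1 : ℂ) z
        rw [norm_one] at this
        linarith
      gcongr
    · exact (h1 z hz.le).2.2.1.trans (le_max_left _ _)
    · have := (h1 z hz.le).2.2.2
      linarith
  obtain ⟨g₁, hg₁⟩ := exists_prim hP
  obtain ⟨f, g, a1, a2, a3, a4, a5, a6, a7, a8⟩ := limit' hE hE1
    (fun f g hf hg ξ hξ δ hδ ε hε ρ₀ hρ₀ => step hC hr'1 hf hg hξ hδ hε hρ₀) hP hg₁ hρ₀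
    (show (0 : ℝ) < e / 4 by linarith)
  refine ⟨f, g, a1, a2, a3.zero, a3.cont, a3.deriv, ⟨r', hr'2, a4⟩, a5, fun z hz => ?_, a8,
    residual_good a3 a7⟩
  have e1 := a6 z hz
  have e2 := hclose z hz
  have e3 : f z - f₀ z = (f z - f₁ z) + (f₁ z - f₀ z) := by ring
  rw [e3]
  have := norm_add_le (f z - f₁ z) (f₁ z - f₀ z)
  linarith

end Pool.Agent.H50.IU
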