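import Pool.Agent.H50.IU.Defs
import Pool.Agent.H50.IH.Dense

/-! # One fold inserted -/

open Complex Set Filter Topology

namespace Pool.Agent.H50.IU

open Pool.Agent.H50.IH (U)

/-- the function with one fold -/
noncomputable def ins (f₁ β : ℂ → ℂ) (s : ℝ) (z : ℂ) : ℂ :=
  f₁ z + (β (U z / (s : ℂ)) - β (1 / (s : ℂ)))

end Pool.Agent.H50.IU
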