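import Pool.Agent.H50.IU.Defs
import Pool.Agent.H50.IH.Dense

/-! # Frames (not imported) -/

open Complex Set Filter Topology

namespace Pool.Agent.H50.IU

open Pool.Agent.H50.IH (U)
open Pool.Agent.H50.IT (Fold)

/-- E (Ext.lean): the primitive exists -/
theorem exists_prim {C r : ℝ} {f : ℂ → ℂ} (hf : P C r f) : ∃ g, Prim f g := sorry

/-- E (Ext.lean): primitives of near functions are near -/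
theorem prim_close {f f' g g' : ℂ → ℂ} {A ε : ℝ} (hg : Prim f g) (hg' : Prim f' g')
    (hA : ∀ z ∈ Metric.ball (0 : ℂ) 1, ‖f z‖ ≤ A) (hε : ε ≤ 1)
    (h : ∀ z ∈ Metric.ball (0 : ℂ) 1, ‖f' z - f z‖ ≤ ε) :
    ∀ z ∈ Metric.closedBall (0 : ℂ) 1, ‖g' z - g z‖ ≤ 2 * Real.exp A * ε := sorry

/-- F (Flat.lean): dilation and flattening, uniformly on the disc -/
theorem exists_flat {C r : ℝ} (hC : 0 ≤ C) (hr : 0 < r) {f : ℂ → ℂ} (hf : P C r f)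
    {ε : ℝ} (hε : 0 < ε) : ∃ (f₁ : ℂ → ℂ) (κ N : ℝ), 0 < κ ∧ 0 ≤ N ∧ Flat C r κ N f₁ ∧
      ∀ z ∈ Metric.ball (0 : ℂ) 1, ‖f₁ z - f z‖ ≤ ε := sorry

/-- the function with one fold -/
noncomputable def ins (f₁ β : ℂ → ℂ) (s : ℝ) (z : ℂ) : ℂ :=
  f₁ z + (β (U z / (s : ℂ)) - β (1 / (s : ℂ)))

/-- G (Near.lean): the primitives are near -/
theorem ins_close {C₁ C r κ N : ℝ} (hC₁ : 100 ≤ C₁) (hN : 0 ≤ N) {f₁ g₁ : ℂ → ℂ}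
    (h₁ : Flat C r κ N f₁) (hg₁ : Prim f₁ g₁) {ε : ℝ} (hε : 0 < ε) :
    ∃ s₀ > 0, ∀ s : ℝ, 0 < s → s ≤ s₀ → ∀ (η a : ℝ) (β φ g : ℂ → ℂ) (ζ : ℂ),
      0 < a → Fold C₁ η a s β φ g ζ → ∀ G : ℂ → ℂ, Prim (ins f₁ β s) G →
      ∀ z ∈ Metric.closedBall (0 : ℂ) 1, ‖G z - g₁ z‖ ≤ ε := sorry

/-- R (Rob.lean): the value near `1` -/
theorem ins_rob {C₁ C r κ N μ : ℝ} (hC₁ : 100 ≤ C₁) (hN : 0 ≤ N) (hμ : 0 < μ) (hμ1 : μ ≤ 1)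
    {f₁ : ℂ → ℂ} (h₁ : Flat C r κ N f₁) {δ : ℝ} (hδ : 0 < δ) :
    ∃ s₀ > 0, ∀ s : ℝ, 0 < s → s ≤ s₀ → ∀ (η : ℝ) (β φ g : ℂ → ℂ) (ζ : ℂ), η ≤ 1 →
      Fold C₁ η (μ * s) s β φ g ζ → ∀ G : ℂ → ℂ, Prim (ins f₁ β s) G →
      ∃ η' > 0, Rob G 1 δ η' := sorry

/-- I (Ins.lean): the class -/
theorem ins_P {C₁ C r κ N c : ℝ} (hC₁ : 100 ≤ C₁) (hκ : 0 < κ) (hN : 0 ≤ N) (hc : 0 < c)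
    (hc4 : c ≤ 1 / 4) (hcC : 1 + 4 * c ≤ C) (hcr : 1 + 4 * c ≤ r)
    {f₁ : ℂ → ℂ} (h₁ : Flat C r κ N f₁) {ρ₀ ε : ℝ} (hρ₀ : ρ₀ < 1) (hε : 0 < ε) :
    ∃ s₀ > 0, ∀ s : ℝ, 0 < s → s ≤ s₀ → ∀ (a : ℝ) (β φ g : ℂ → ℂ) (ζ : ℂ), 0 < a →
      Fold C₁ c a s β φ g ζ → P C r (ins f₁ β s) ∧
      ∀ z : ℂ, ‖z‖ ≤ ρ₀ → ‖ins f₁ β s z - f₁ z‖ ≤ ε := sorry

/-- S (Step.lean): one step -/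
theorem step {C r : ℝ} (hC : 1 < C) (hr : 1 < r) {f g : ℂ → ℂ} (hf : P C r f) (hg : Prim f g)
    {ξ : ℂ} (hξ : ‖ξ‖ = 1) {δ ε ρ₀ : ℝ} (hδ : 0 < δ) (hε : 0 < ε) (hρ₀ : ρ₀ < 1) :
    ∃ f' g' : ℂ → ℂ, P C r f' ∧ Prim f' g' ∧ (∀ z : ℂ, ‖z‖ ≤ ρ₀ → ‖f' z - f z‖ ≤ ε) ∧
      (∀ z ∈ Metric.closedBall (0 : ℂ) 1, ‖g' z - g z‖ ≤ ε) ∧ ∃ η > 0, Rob g' ξ δ η := sorry

/-- L (Lim.lean): the limit -/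
theorem limit {C r : ℝ} 
    (hstep : ∀ f g : ℂ → ℂ, P C r f → Prim f g → ∀ ξ : ℂ, ‖ξ‖ = 1 → ∀ δ > 0, ∀ ε > 0,
      ∀ ρ₀ < 1, ∃ f' g' : ℂ → ℂ, P C r f' ∧ Prim f' g' ∧
        (∀ z : ℂ, ‖z‖ ≤ ρ₀ → ‖f' z - f z‖ ≤ ε) ∧
        (∀ z ∈ Metric.closedBall (0 : ℂ) 1, ‖g' z - g z‖ ≤ ε) ∧ ∃ η > 0, Rob g' ξ δ η)
    {f₀ g₀ : ℂ → ℂ} (hf₀ : P C r f₀) (hg₀ : Prim f₀ g₀) {ρ₀ e : ℝ} (hρ₀ : ρ₀ < 1) (he : 0 < e) :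
    ∃ f g : ℂ → ℂ, DifferentiableOn ℂ f (Metric.ball 0 1) ∧ f 0 = 0 ∧ Prim f g ∧
      (∀ z ∈ Metric.ball (0 : ℂ) 1, (1 - ‖z‖ ^ 2) * ‖deriv f z‖ ≤ r) ∧
      (∀ z ∈ Metric.ball (0 : ℂ) 1, (1 - ‖z‖ ^ 2) * ‖deriv f z‖ ≤ 1 + C * (1 - ‖z‖)) ∧
      (∀ z : ℂ, ‖z‖ ≤ ρ₀ → ‖f z - f₀ z‖ ≤ e) ∧
      ∀ ξ₀ : ℂ, ‖ξ₀‖ = 1 → ∀ δ > 0, ∃ ξ : ℂ, ‖ξ‖ = 1 ∧ ‖ξ - ξ₀‖ < δ ∧
        ∀ δ' > 0, {z ∈ Metric.ball (0 : ℂ) 1 | ‖z - ξ‖ < δ' ∧ g z = g ξ}.Infinite := sorry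

end Pool.Agent.H50.IU
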