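import Pool.Agent.H50.IU.Defs

/-! # Rotations -/

open Complex Set Filter Topology

namespace Pool.Agent.H50.IU

lemma mem_ball_mul {ω z : ℂ} (hω : ‖ω‖ = 1) (hz : z ∈ Metric.ball (0 : ℂ) 1) :
    ω * z ∈ Metric.ball (0 : ℂ) 1 := by
  rw [mem_ball_zero_iff] at hz ⊢
  rwa [norm_mul, hω, one_mul]

lemma mem_closedBall_mul {ω z : ℂ} (hω : ‖ω‖ = 1) (hz : z ∈ Metric.closedBall (0 : ℂ) 1) :
    ω * z ∈ Metric.closedBall (0 : ℂ) 1 := by
  rw [mem_closedBall_zero_iff] at hz ⊢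
  rwa [norm_mul, hω, one_mul]

lemma P.hasDerivAt {C r : ℝ} {f : ℂ → ℂ} (h : P C r f) {z : ℂ}
    (hz : z ∈ Metric.ball (0 : ℂ) 1) : HasDerivAt f (deriv f z) z :=
  (h.diff.differentiableAt (Metric.isOpen_ball.mem_nhds hz)).hasDerivAt

lemma P.hasDerivAt_rot {C r : ℝ} {f : ℂ → ℂ} (h : P C r f) {ω : ℂ} (hω : ‖ω‖ = 1) {z : ℂ}
    (hz : z ∈ Metric.ball (0 : ℂ) 1) :
    HasDerivAt (fun z => f (ω * z)) (deriv f (ω * z) * ω) z := by
  have h1 : HasDerivAt (fun z : ℂ => ω * z) ω z := by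
    simpa using (hasDerivAt_id z).const_mul ω
  exact (h.hasDerivAt (mem_ball_mul hω hz)).comp z h1

lemma P.norm_deriv_rot {C r : ℝ} {f : ℂ → ℂ} (h : P C r f) {ω : ℂ} (hω : ‖ω‖ = 1) {z : ℂ}
    (hz : z ∈ Metric.ball (0 : ℂ) 1) :
    ‖deriv (fun z => f (ω * z)) z‖ = ‖deriv f (ω * z)‖ := by
  rw [(h.hasDerivAt_rot hω hz).deriv, norm_mul, hω, mul_one]

theorem P.rot {C r : ℝ} {f : ℂ → ℂ} (h : P C r f) {ω : ℂ} (hω : ‖ω‖ = 1) :
    P C r (fun z => f (ω * z)) where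
  diff := fun z hz => (h.hasDerivAt_rot hω hz).differentiableAt.differentiableWithinAt
  zero := by simp [h.zero]
  bdd := by
    obtain ⟨N, hN⟩ := h.bdd
    refine ⟨N, fun z hz => ?_⟩
    rw [h.norm_deriv_rot hω hz]
    exact hN _ (mem_ball_mul hω hz)
  le_r := fun z hz => by
    rw [h.norm_deriv_rot hω hz]
    have := h.le_r _ (mem_ball_mul hω hz)
    rwa [norm_mul, hω, one_mul] at this
  le_C := fun z hz => by
    rw [h.norm_deriv_rot hω hz]
    have := h.le_C _ (mem_ball_mul hω hz)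
    rwa [norm_mul, hω, one_mul] at this

theorem Prim.rot {f g : ℂ → ℂ} (h : Prim f g) {ω : ℂ} (hω : ‖ω‖ = 1) :
    Prim (fun z => f (ω * z)) (fun z => ω⁻¹ * g (ω * z)) where
  cont := by
    refine continuousOn_const.mul (h.cont.comp (by fun_prop) ?_)
    intro z hz
    exact mem_closedBall_mul hω hz
  zero := by simp [h.zero]
  deriv := fun z hz => by
    have hne : ω ≠ 0 := by
      intro h0
      rw [h0, norm_zero] at hω
      exact zero_ne_one hω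
    have h1 : HasDerivAt (fun z : ℂ => ω * z) ω z := by
      simpa using (hasDerivAt_id z).const_mul ω
    have h2 := ((h.deriv _ (mem_ball_mul hω hz)).comp z h1).const_mul ω⁻¹
    refine h2.congr_deriv ?_
    field_simp

theorem Rob.rot {G : ℂ → ℂ} {δ η : ℝ} (h : Rob G 1 δ η) {ξ : ℂ} (hξ : ‖ξ‖ = 1) :
    Rob (fun z => ξ * G (ξ⁻¹ * z)) ξ δ η := by
  intro k hk hd hkG
  have hne : ξ ≠ 0 := by
    intro h0
    rw [h0, norm_zero] at hξ
    exact zero_ne_one hξ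
  have hξi : ‖ξ⁻¹‖ = 1 := by rw [norm_inv, hξ, inv_one]
  have c1 : ContinuousOn (fun z => ξ⁻¹ * k (ξ * z)) (Metric.closedBall 0 1) := by
    refine continuousOn_const.mul (hk.comp (by fun_prop) ?_)
    intro z hz
    exact mem_closedBall_mul hξ hz
  have c2 : ∀ z ∈ Metric.ball (0 : ℂ) 1, ∃ d, d ≠ 0 ∧
      HasDerivAt (fun z => ξ⁻¹ * k (ξ * z)) d z := by
    intro z hz
    obtain ⟨d, hd0, hd1⟩ := hd _ (mem_ball_mul hξ hz)
    refine ⟨d, hd0, ?_⟩
    have h1 : HasDerivAt (fun z : ℂ => ξ * z) ξ z := by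
      simpa using (hasDerivAt_id z).const_mul ξ
    have h2 := (hd1.comp z h1).const_mul ξ⁻¹
    refine h2.congr_deriv ?_
    field_simp
  have c3 : ∀ z ∈ Metric.closedBall (0 : ℂ) 1, ‖ξ⁻¹ * k (ξ * z) - G z‖ ≤ η := by
    intro z hz
    have h1 := hkG _ (mem_closedBall_mul hξ hz)
    have e1 : ξ⁻¹ * (ξ * z) = z := by field_simp
    simp only [e1] at h1
    have e2 : ξ⁻¹ * k (ξ * z) - G z = ξ⁻¹ * (k (ξ * z) - ξ * G z) := by
      field_simp
    rw [e2, norm_mul, hξi, one_mul]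
    exact h1
  obtain ⟨z, hz, hz1, hzv⟩ := h (fun z => ξ⁻¹ * k (ξ * z)) c1 c2 c3
  refine ⟨ξ * z, mem_ball_mul hξ hz, ?_, ?_⟩
  · have e : ξ * z - ξ = ξ * (z - 1) := by ring
    rw [e, norm_mul, hξ, one_mul]
    exact hz1
  · have := mul_left_cancel₀ (inv_ne_zero hne) hzv
    rwa [mul_one] at this

/-- the bound of the function -/
lemma P.norm_le {C r : ℝ} {f : ℂ → ℂ} (h : P C r f) :
    ∃ A : ℝ, ∀ z ∈ Metric.ball (0 : ℂ) 1, ‖f z‖ ≤ A := by
  obtain ⟨N, hN⟩ := h.bdd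
  have hN0 : 0 ≤ N := (norm_nonneg _).trans (hN 0 (by simp))
  refine ⟨N, fun z hz => ?_⟩
  have h1 := (convex_ball (0 : ℂ) 1).norm_image_sub_le_of_norm_deriv_le (f := f)
    (fun x hx => (h.hasDerivAt hx).differentiableAt) hN
    (show (0 : ℂ) ∈ Metric.ball (0 : ℂ) 1 by simp) hz
  rw [h.zero, sub_zero, sub_zero] at h1
  rw [mem_ball_zero_iff] at hz
  nlinarith

theorem Flat.toP {C r κ N : ℝ} (hκ : 0 < κ) (hN : 0 ≤ N) {f : ℂ → ℂ} (h : Flat C r κ N f) :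
    P C r f where
  diff := fun z hz => (h.diff z (by
    rw [mem_ball_zero_iff] at hz
    exact hz.le)).differentiableWithinAt
  zero := h.zero
  bdd := ⟨N * 2, fun z hz => by
    rw [mem_ball_zero_iff] at hz
    refine (h.flat z hz.le).trans ?_
    have g2 : ‖1 - z‖ ≤ 2 := by
      have := norm_sub_le (1 : ℂ) z
      rw [norm_one] at this
      linarith
    gcongr⟩
  le_r := fun z hz => by
    rw [mem_ball_zero_iff] at hz
    have := h.le_r z hz.le
    linarith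
  le_C := fun z hz => by
    rw [mem_ball_zero_iff] at hz
    have := h.le_C z hz.le
    linarith

end Pool.Agent.H50.IU
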